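import Mathlib

/-!
# Minkowski power series of typical compact sets: definitions and statements

Plan (helper825).  For `κ ≥ 1` a sequence `aa κ` of positive numbers is defined such that for the
typical compact `K ⊆ [0,1]` the set `f(K) = ∑ a_i K^(i)` has Hausdorff dimension `1 / κ` and Lebesgue
measure `0`.

Upper bound (`St_A`): the typical `K` is at infinitely many scales extremely close to a finite set of
powers `ρ ^ e`, `e ≤ r`, so that `K^(i)` is close to the `r i + 1` numbers `ρ ^ e`, `e ≤ r i`.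

Lower bound: for `x < y` in `K` the set `f(K)` contains the sums of `a_i y^i (x/y)^(k_i)`, `k_i ≤ i`.
The levels `i` of a group of `2 ^ r` consecutive levels are assigned to slots; in each slot the level
is chosen from a set of levels which are pairwise not `Bad` (`St_B`).
-/

set_option autoImplicit false

open TopologicalSpace Filter Topology Set

namespace Pool.Agent.R825.MK

/-- the space of nonempty compact subsets of `[0, 1]` with the Hausdorff metric -/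
abbrev KK01 : Type := NonemptyCompacts (Icc (0 : ℝ) 1)

/-- the Minkowski product of `i` copies of `K` -/
def MinkPow (K : KK01) : ℕ → NonemptyCompacts ℝ
  | 0 => {1}
  | i + 1 => (MinkPow K i ×ˢ K.map Subtype.val continuous_subtype_val).map
      (fun p => p.1 * p.2) (by fun_prop)

/-- the Minkowski sum of the sets `a i • K^(i)` for `i ≤ n` -/
noncomputable def PartialSum (a : ℕ → ℝ) (K : KK01) : ℕ → NonemptyCompacts ℝ
  | 0 => (MinkPow K 0).map (fun p => a 0 * p) (by fun_prop)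
  | n + 1 => (PartialSum a K n ×ˢ MinkPow K (n + 1)).map
      (fun p => p.1 + a (n + 1) * p.2) (by fun_prop)

/-- `L = f(K)` for `f = ∑ a_i x^i`: the partial Minkowski sums converge to `L` in the Hausdorff
metric -/
def IsSeries (a : ℕ → ℝ) (K : KK01) (L : NonemptyCompacts ℝ) : Prop :=
  Tendsto (PartialSum a K) atTop (𝓝 L)

/-- level of the `g`-th group -/
def lev (g : ℕ) : ℕ := Nat.sqrt (Nat.sqrt g)

/-- the first index of the `g`-th group (the group has `2 ^ lev g` elements) -/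
def nn (g : ℕ) : ℕ := ∑ h ∈ Finset.range g, 2 ^ lev h

/-- distance of the slots at level `r` -/
noncomputable def Ls (κ : ℝ) (r : ℕ) : ℕ := ⌈κ * r⌉₊ + 2 * Nat.sqrt r

/-- position of the `g`-th group -/
noncomputable def PP (κ : ℝ) (g : ℕ) : ℕ := ∑ h ∈ Finset.range g, 2 ^ lev h * Ls κ (lev h)

/-- the group of the index `i` -/
def grp (i : ℕ) : ℕ := Nat.findGreatest (fun g => nn g ≤ i) i

/-- the coefficients: for `i = nn g + j`, `j < 2 ^ lev g` this is `2 ^ (- PP g - j ^ 2 / 4 ^ lev g)` -/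
noncomputable def aa (κ : ℝ) (i : ℕ) : ℝ :=
  Real.exp (-(Real.log 2 * (PP κ (grp i) + ((i - nn (grp i) : ℕ) : ℝ) ^ 2 / 4 ^ lev (grp i))))

/-- number of used slots of a group of level `r` -/
def TT (r : ℕ) : ℕ := 2 ^ r - 2 ^ (r - Nat.sqrt r)

/-- number of bits coded in one slot at level `r` -/
def bb (r : ℕ) : ℕ := r - 3 * Nat.sqrt r

/-- number of bits coded in the groups `g0, ..., g - 1` -/
def BB (g0 g : ℕ) : ℕ := ∑ h ∈ Finset.range g, if g0 ≤ h then TT (lev h) * bb (lev h) else 0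

/-- two levels `nn g + j`, `nn g + j'` of a group of level `r` which are not resolved with precision
`ε`; here `η = - log y`, `lam = log (y / x)` -/
def Bad (η lam ε : ℝ) (r j j' : ℕ) : Prop :=
  ∃ m : ℤ, |Real.log 2 * (((j : ℝ) ^ 2 - (j' : ℝ) ^ 2) / 4 ^ r) + ((j : ℝ) - j') * η - m * lam| < ε

/-- MK-A: the upper bound. -/
def St_A : Prop := ∀ (a : ℕ → ℝ), (∀ i, 0 < a i) → Summable a → ∀ s : ℝ, 0 < s →
  (∀ C δ : ℝ, 0 < C → 0 < δ → ∀ r0 : ℕ, ∃ r ≥ r0, ∃ N : ℕ, 1 ≤ N ∧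
    ((r * N : ℕ) : ℝ) ^ N * (C * ∑' i, a (i + N)) ^ s < δ) →
  ∀ᶠ K in residual KK01, ∀ L, IsSeries a K L →
    MeasureTheory.Measure.hausdorffMeasure s (L : Set ℝ) = 0

/-- MK-B: many pairwise good levels in every large set of levels. -/
def St_B : Prop := ∀ η lam : ℝ, 0 < lam → ∃ r0 : ℕ, ∀ r ≥ r0, ∀ U : Finset ℕ,
  (∀ j ∈ U, j < 2 ^ r) → 2 ^ (r - Nat.sqrt r) ≤ U.card →
  ∃ D : (Fin (bb r) → Fin 2) → ℕ, (∀ b, D b ∈ U) ∧
    ∀ b b', b ≠ b' → ¬ Bad η lam (((2 : ℝ) ^ (r + Nat.sqrt r))⁻¹) r (D b) (D b')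

/-- MK-D1: the groups are short. -/
def St_D1 : Prop := ∀ κ : ℝ, 1 ≤ κ → ∀ C : ℝ, ∃ g0 : ℕ, ∀ g ≥ g0,
  C * (2 ^ lev g * (Ls κ (lev g) + 1)) ≤ nn g

/-- MK-D2: the coefficients are positive, summable, and satisfy the assumption of `St_A`. -/
def St_D2 : Prop := ∀ κ : ℝ, 1 ≤ κ → Summable (aa κ) ∧ ∀ s : ℝ, 0 < s → (1 < s * κ ∨ s = 1) →
  ∀ C δ : ℝ, 0 < C → 0 < δ → ∀ r0 : ℕ, ∃ r ≥ r0, ∃ N : ℕ, 1 ≤ N ∧
    ((r * N : ℕ) : ℝ) ^ N * (C * ∑' i, aa κ (i + N)) ^ s < δ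

/-- MK-D3: bits versus positions. -/
def St_D3 : Prop := ∀ κ : ℝ, 1 ≤ κ → ∀ η : ℝ, 0 ≤ η → ∀ s : ℝ, 0 < s → s * κ < 1 → ∀ g0 : ℕ,
  ∃ C : ℝ, ∀ g ≥ g0, ∀ t < TT (lev g),
    s * (PP κ g + (nn g + 2 ^ lev g) * η + 1 + Ls κ (lev g) * (t + 2)) ≤
      BB g0 g + t * bb (lev g) + C

end Pool.Agent.R825.MK
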