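import Pool.Agent.R825.MK.Stmts

/-!
# Levels, slots and values
-/

set_option autoImplicit false

open Finset

namespace Pool.Agent.R825.MK

/-- the parameters of the lower bound: `η = - log y`, `lam = log (y / x)` -/
structure Par where
  κ : ℝ
  hκ : 1 ≤ κ
  η : ℝ
  hη : 0 ≤ η
  lam : ℝ
  hlam : 0 < lam
  g0 : ℕ
  hB : ∀ g ≥ g0, ∀ U : Finset ℕ,
    (∀ j ∈ U, j < 2 ^ lev g) → 2 ^ (lev g - Nat.sqrt (lev g)) ≤ U.card →
    ∃ D : (Fin (bb (lev g)) → Fin 2) → ℕ, (∀ b, D b ∈ U) ∧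
      ∀ b b', b ≠ b' → ¬ Bad η lam (((2 : ℝ) ^ (lev g + Nat.sqrt (lev g)))⁻¹) (lev g) (D b) (D b')
  hshort : ∀ g ≥ g0, (Real.log 2 * (2 ^ lev g * Ls κ (lev g)) + η * 2 ^ lev g + Real.log 2) / lam + 1
    ≤ nn g
  hw : ∀ g ≥ g0, 64 ≤ Real.exp (-lam) * 2 ^ (Nat.sqrt (lev g))
  hw8 : ∀ g ≥ g0, 8 ≤ Nat.sqrt (lev g)

lemma lev_mono : Monotone lev := fun _ _ h => Nat.sqrt_le_sqrt (Nat.sqrt_le_sqrt h)

lemma nn_succ (g : ℕ) : nn (g + 1) = nn g + 2 ^ lev g := sum_range_succ _ _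

lemma PP_succ (κ : ℝ) (g : ℕ) : PP κ (g + 1) = PP κ g + 2 ^ lev g * Ls κ (lev g) :=
  sum_range_succ _ _

lemma nn_strictMono : StrictMono nn := by
  apply strictMono_nat_of_lt_succ
  intro g
  rw [nn_succ]
  have : 0 < 2 ^ lev g := by positivity
  omega

lemma nn_zero : nn 0 = 0 := by simp [nn]

lemma le_nn (g : ℕ) : g ≤ nn g := nn_strictMono.le_apply

lemma grp_eq (g j : ℕ) (hj : j < 2 ^ lev g) : grp (nn g + j) = g := by
  unfold grp
  rw [Nat.findGreatest_eq_iff]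
  refine ⟨(le_nn g).trans (Nat.le_add_right _ _), fun _ => Nat.le_add_right _ _, ?_⟩
  intro n hn _ hcon
  have h1 : nn (g + 1) ≤ nn n := nn_strictMono.monotone hn
  rw [nn_succ] at h1
  omega

lemma exists_grp (i : ℕ) : ∃ g j, j < 2 ^ lev g ∧ i = nn g + j := by
  refine ⟨grp i, i - nn (grp i), ?_, ?_⟩
  · have h1 : ¬ nn (grp i + 1) ≤ i := by
      intro hcon
      have h2 : grp i + 1 ≤ i := (le_nn _).trans hcon
      have h3 := Nat.le_findGreatest (P := fun g => nn g ≤ i) h2 hcon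
      unfold grp at h3
      omega
    rw [nn_succ] at h1
    have h2 : 0 < 2 ^ lev (grp i) := by positivity
    omega
  · have h1 : nn (grp i) ≤ i := by
      unfold grp
      exact Nat.findGreatest_spec (P := fun g => nn g ≤ i) (Nat.zero_le _) (by simp [nn_zero])
    omega

lemma sum_range_nn {M : Type*} [AddCommMonoid M] (f : ℕ → M) (g : ℕ) :
    ∑ i ∈ range (nn g), f i = ∑ h ∈ range g, ∑ j ∈ range (2 ^ lev h), f (nn h + j) := by
  induction g with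
  | zero => simp [nn_zero]
  | succ g ih => rw [nn_succ, sum_range_add, ih, sum_range_succ (n := g)]

lemma Ls_ge (κ : ℝ) (hκ : 1 ≤ κ) (r : ℕ) : r + 2 * Nat.sqrt r ≤ Ls κ r := by
  unfold Ls
  have h1 : (r : ℝ) ≤ κ * r := by
    have : (0 : ℝ) ≤ r := by positivity
    nlinarith
  have h2 : (r : ℝ) ≤ ((⌈κ * r⌉₊ : ℕ) : ℝ) := h1.trans (Nat.le_ceil _)
  have h3 : r ≤ ⌈κ * r⌉₊ := by exact_mod_cast h2
  omega

namespace Par

variable (P : Par)

/-- the logarithmic size of the largest value of the level `nn g + j` -/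
noncomputable def EE (g j : ℕ) : ℝ :=
  Real.log 2 * (PP P.κ g + (j : ℝ) ^ 2 / 4 ^ lev g) + (nn g + j) * P.η

/-- the position of the slot `τ` of the group `g` -/
noncomputable def SS (g τ : ℕ) : ℝ :=
  Real.log 2 * PP P.κ g + (nn g + 2 ^ lev g) * P.η + Real.log 2 +
    Real.log 2 * (Ls P.κ (lev g) * τ)

lemma log2_pos : 0 < Real.log 2 := Real.log_pos (by norm_num)

lemma EE_le (g j τ : ℕ) (hj : j < 2 ^ lev g) : P.EE g j ≤ P.SS g τ := by
  unfold EE SS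
  have h1 : (j : ℝ) ≤ 2 ^ lev g := by exact_mod_cast hj.le
  have h2 : (j : ℝ) ^ 2 / 4 ^ lev g ≤ 1 := by
    rw [div_le_one (by positivity)]
    calc (j : ℝ) ^ 2 ≤ (2 ^ lev g) ^ 2 := by gcongr
      _ = 4 ^ lev g := by rw [← pow_mul, mul_comm, pow_mul]; norm_num
  have h3 := log2_pos
  have h4 : Real.log 2 * ((j : ℝ) ^ 2 / 4 ^ lev g) ≤ Real.log 2 := by nlinarith
  have h5 : (j : ℝ) * P.η ≤ 2 ^ lev g * P.η := mul_le_mul_of_nonneg_right h1 P.hη
  have h6 : 0 ≤ Real.log 2 * ((Ls P.κ (lev g) : ℝ) * τ) := by positivity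
  nlinarith

/-- the exponent with which the level `nn g + j` is put into the slot `τ` -/
noncomputable def kk (g j τ : ℕ) : ℕ := ⌈(P.SS g τ - P.EE g j) / P.lam⌉₊

lemma kk_lower (g j τ : ℕ) : P.SS g τ ≤ P.EE g j + P.lam * P.kk g j τ := by
  have h1 : (P.SS g τ - P.EE g j) / P.lam ≤ P.kk g j τ := Nat.le_ceil _
  rw [div_le_iff₀ P.hlam] at h1
  linarith

lemma kk_upper (g j τ : ℕ) (hj : j < 2 ^ lev g) :
    P.EE g j + P.lam * P.kk g j τ < P.SS g τ + P.lam := by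
  have h0 : 0 ≤ (P.SS g τ - P.EE g j) / P.lam :=
    div_nonneg (by linarith [P.EE_le g j τ hj]) P.hlam.le
  have h1 : (P.kk g j τ : ℝ) < (P.SS g τ - P.EE g j) / P.lam + 1 := Nat.ceil_lt_add_one h0
  have h2 : (P.SS g τ - P.EE g j) / P.lam * P.lam = P.SS g τ - P.EE g j :=
    div_mul_cancel₀ _ P.hlam.ne'
  nlinarith [P.hlam]

lemma kk_le (g j τ : ℕ) (hg : P.g0 ≤ g) (hj : j < 2 ^ lev g) (hτ : τ < 2 ^ lev g) :
    P.kk g j τ ≤ nn g := by
  have h0 : 0 ≤ (P.SS g τ - P.EE g j) / P.lam :=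
    div_nonneg (by linarith [P.EE_le g j τ hj]) P.hlam.le
  have h1 : (P.kk g j τ : ℝ) < (P.SS g τ - P.EE g j) / P.lam + 1 := Nat.ceil_lt_add_one h0
  have h2 := P.hshort g hg
  have h3 : P.SS g τ - P.EE g j ≤
      Real.log 2 * (2 ^ lev g * Ls P.κ (lev g)) + P.η * 2 ^ lev g + Real.log 2 := by
    unfold SS EE
    have h4 : (τ : ℝ) ≤ 2 ^ lev g := by exact_mod_cast hτ.le
    have h5 := log2_pos
    have h6 : Real.log 2 * ((Ls P.κ (lev g) : ℝ) * τ) ≤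
        Real.log 2 * (2 ^ lev g * Ls P.κ (lev g)) := by
      rw [mul_comm (2 ^ lev g : ℝ)]
      gcongr
    have h7 : 0 ≤ Real.log 2 * ((j : ℝ) ^ 2 / 4 ^ lev g) := by positivity
    have h8 : 0 ≤ (j : ℝ) * P.η := mul_nonneg (by positivity) P.hη
    nlinarith
  have h4 : (P.SS g τ - P.EE g j) / P.lam ≤
      (Real.log 2 * (2 ^ lev g * Ls P.κ (lev g)) + P.η * 2 ^ lev g + Real.log 2) / P.lam :=
    div_le_div_of_nonneg_right h3 P.hlam.le
  have h5 : (P.kk g j τ : ℝ) < nn g := by linarith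
  exact_mod_cast h5.le

/-- the value of the level `nn g + j` in the slot `τ` -/
noncomputable def vv (g j τ : ℕ) : ℝ := Real.exp (-(P.EE g j + P.lam * P.kk g j τ))

lemma vv_pos (g j τ : ℕ) : 0 < P.vv g j τ := Real.exp_pos _

lemma vv_le (g j τ : ℕ) : P.vv g j τ ≤ Real.exp (-P.SS g τ) :=
  Real.exp_le_exp.2 (by linarith [P.kk_lower g j τ])

lemma vv_sep (g j j' τ : ℕ) (hg : P.g0 ≤ g) (hj : j < 2 ^ lev g) (hj' : j' < 2 ^ lev g)
    (hbad : ¬ Bad P.η P.lam (((2 : ℝ) ^ (lev g + Nat.sqrt (lev g)))⁻¹) (lev g) j j') :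
    32 * ((2 : ℝ) ^ Ls P.κ (lev g))⁻¹ * Real.exp (-P.SS g τ) ≤ |P.vv g j τ - P.vv g j' τ| := by
  -- a general estimate
  have key : ∀ u u' δ : ℝ, u ≤ P.SS g τ + P.lam → 0 ≤ δ → δ ≤ 1 → u + δ ≤ u' →
      Real.exp (-P.SS g τ) * Real.exp (-P.lam) * (δ / 2) ≤ Real.exp (-u) - Real.exp (-u') := by
    intro u u' δ hu h0 h1 h2
    have h3 : Real.exp (-u') ≤ Real.exp (-u) * Real.exp (-δ) := by
      rw [← Real.exp_add]
      exact Real.exp_le_exp.2 (by linarith)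
    have h4 : Real.exp (-δ) ≤ 1 - δ / 2 := by
      have h5 : Real.exp (-δ) ≤ 1 / (1 + δ) := by
        rw [Real.exp_neg, ← one_div]
        apply one_div_le_one_div_of_le (by linarith)
        linarith [Real.add_one_le_exp δ]
      refine h5.trans ?_
      rw [div_le_iff₀ (by linarith)]
      nlinarith
    have h5 : Real.exp (-P.SS g τ) * Real.exp (-P.lam) ≤ Real.exp (-u) := by
      rw [← Real.exp_add]
      exact Real.exp_le_exp.2 (by linarith)
    have h6 : 0 < Real.exp (-u) := Real.exp_pos _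
    calc Real.exp (-P.SS g τ) * Real.exp (-P.lam) * (δ / 2) ≤ Real.exp (-u) * (δ / 2) :=
          mul_le_mul_of_nonneg_right h5 (by linarith)
      _ = Real.exp (-u) - Real.exp (-u) * (1 - δ / 2) := by ring
      _ ≤ Real.exp (-u) - Real.exp (-u) * Real.exp (-δ) := by
          have := mul_le_mul_of_nonneg_left h4 h6.le
          linarith
      _ ≤ _ := by linarith
  set δ : ℝ := ((2 : ℝ) ^ (lev g + Nat.sqrt (lev g)))⁻¹ with hδ
  have hδ0 : 0 ≤ δ := by positivity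
  have hδ1 : δ ≤ 1 := inv_le_one_of_one_le₀ (one_le_pow₀ (by norm_num))
  have hsep : δ ≤ |(P.EE g j + P.lam * P.kk g j τ) - (P.EE g j' + P.lam * P.kk g j' τ)| := by
    by_contra hcon
    apply hbad
    refine ⟨(P.kk g j' τ : ℤ) - P.kk g j τ, ?_⟩
    push Not at hcon
    refine lt_of_le_of_lt (le_of_eq ?_) hcon
    congr 1
    unfold EE
    push_cast
    ring
  have hmain : Real.exp (-P.SS g τ) * Real.exp (-P.lam) * (δ / 2) ≤
      |P.vv g j τ - P.vv g j' τ| := by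
    rcases le_abs.1 hsep with h | h
    · have := key (P.EE g j' + P.lam * P.kk g j' τ) (P.EE g j + P.lam * P.kk g j τ) δ
        (P.kk_upper g j' τ hj').le hδ0 hδ1 (by linarith)
      rw [abs_sub_comm]
      exact this.trans (le_abs_self _)
    · have := key (P.EE g j + P.lam * P.kk g j τ) (P.EE g j' + P.lam * P.kk g j' τ) δ
        (P.kk_upper g j τ hj).le hδ0 hδ1 (by linarith)
      exact this.trans (le_abs_self _)
  refine le_trans ?_ hmain
  have h1 := P.hw g hg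
  have h2 : ((2 : ℝ) ^ Ls P.κ (lev g))⁻¹ * 2 ^ Nat.sqrt (lev g) ≤ δ := by
    rw [hδ, ← div_eq_inv_mul, div_le_iff₀ (by positivity), ← div_eq_inv_mul,
      le_div_iff₀ (by positivity), ← pow_add]
    apply pow_le_pow_right₀ (by norm_num)
    have := Ls_ge P.κ P.hκ (lev g)
    omega
  have h3 : 0 < ((2 : ℝ) ^ Ls P.κ (lev g))⁻¹ := by positivity
  have h4 : 0 < Real.exp (-P.SS g τ) := Real.exp_pos _
  have h5 : 0 < Real.exp (-P.lam) := Real.exp_pos _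
  calc 32 * ((2 : ℝ) ^ Ls P.κ (lev g))⁻¹ * Real.exp (-P.SS g τ)
      = Real.exp (-P.SS g τ) * ((2 : ℝ) ^ Ls P.κ (lev g))⁻¹ * (64 / 2) := by ring
    _ ≤ Real.exp (-P.SS g τ) * ((2 : ℝ) ^ Ls P.κ (lev g))⁻¹ *
        (Real.exp (-P.lam) * 2 ^ (Nat.sqrt (lev g)) / 2) := by gcongr
    _ = Real.exp (-P.SS g τ) * Real.exp (-P.lam) *
        ((((2 : ℝ) ^ Ls P.κ (lev g))⁻¹ * 2 ^ Nat.sqrt (lev g)) / 2) := by ring
    _ ≤ _ := by gcongr

end Par

end Pool.Agent.R825.MK
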