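import Pool.Agent.R825.MK.Core1

/-!
# The code and the separation of its values
-/

set_option autoImplicit false

open Finset

namespace Pool.Agent.R825.MK

lemma lev_succ_le (g : ℕ) : lev (g + 1) ≤ lev g + 1 := by
  unfold lev
  calc Nat.sqrt (Nat.sqrt (g + 1)) ≤ Nat.sqrt (Nat.sqrt g + 1) :=
        Nat.sqrt_le_sqrt (Nat.sqrt_succ_le_succ_sqrt g)
    _ ≤ _ := Nat.sqrt_succ_le_succ_sqrt _

/-- tails of sums over the groups -/
lemma tail_bound (v : ℕ → ℝ) (hv : ∀ i, 0 ≤ v i) (c : ℕ → ℝ) (g1 : ℕ)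
    (h : ∀ g ≥ g1, ∑ j ∈ range (2 ^ lev g), v (nn g + j) ≤ c g)
    (hc : ∀ g ≥ g1, c (g + 1) ≤ c g / 2) :
    Summable v ∧ ∀ g ≥ g1, ∑' i, v (i + nn g) ≤ 2 * c g := by
  have hc0 : ∀ g ≥ g1, 0 ≤ c g := fun g hg => (sum_nonneg fun j _ => hv _).trans (h g hg)
  have key : ∀ g ≥ g1, ∀ n, ∑ i ∈ range n, v (i + nn g) ≤ 2 * c g := by
    intro g hg n
    have h1 : ∀ m, ∑ i ∈ range (nn (g + m) - nn g), v (i + nn g) + 2 * c (g + m) ≤ 2 * c g := by
      intro m
      induction m with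
      | zero => simp
      | succ m ih =>
        have h2 : nn (g + (m + 1)) - nn g = (nn (g + m) - nn g) + 2 ^ lev (g + m) := by
          have h3 : nn g ≤ nn (g + m) := nn_strictMono.monotone (Nat.le_add_right _ _)
          have h4 : 0 < 2 ^ lev (g + m) := by positivity
          rw [← add_assoc, nn_succ]
          omega
        have h3 : nn g ≤ nn (g + m) := nn_strictMono.monotone (Nat.le_add_right _ _)
        rw [h2, sum_range_add]
        have h4 : ∑ x ∈ range (2 ^ lev (g + m)), v (nn (g + m) - nn g + x + nn g) ≤ c (g + m) := by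
          refine le_trans (le_of_eq ?_) (h (g + m) (by omega))
          apply sum_congr rfl
          intro x _
          congr 1
          omega
        have h5 := hc (g + m) (by omega)
        rw [← add_assoc]
        linarith
    refine le_trans ?_ (by linarith [h1 n, hc0 (g + n) (by omega)] :
      ∑ i ∈ range (nn (g + n) - nn g), v (i + nn g) ≤ 2 * c g)
    apply sum_le_sum_of_subset_of_nonneg
    · apply range_subset_range.2
      have : ∀ m, m ≤ nn (g + m) - nn g := by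
        intro m
        induction m with
        | zero => omega
        | succ m ih =>
          have h3 : nn g ≤ nn (g + m) := nn_strictMono.monotone (Nat.le_add_right _ _)
          have h4 : 0 < 2 ^ lev (g + m) := by positivity
          rw [← add_assoc, nn_succ]
          omega
      exact this n
    · intro i _ _
      exact hv _
  refine ⟨?_, fun g hg => ?_⟩
  · have h1 : Summable (fun i => v (i + nn g1)) :=
      summable_of_sum_range_le (fun i => hv _) (key g1 le_rfl)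
    exact (summable_nat_add_iff (nn g1)).1 h1
  · exact Real.tsum_le_of_sum_range_le (fun i => hv _) (key g hg)

namespace Par

variable (P : Par)

open Classical in
/-- the choice of a level from the set `U` -/
noncomputable def pickD (g : ℕ) (U : Finset ℕ) : (Fin (bb (lev g)) → Fin 2) → ℕ :=
  if h : P.g0 ≤ g ∧ (∀ j ∈ U, j < 2 ^ lev g) ∧ 2 ^ (lev g - Nat.sqrt (lev g)) ≤ U.card then
    (P.hB g h.1 U h.2.1 h.2.2).choose else fun _ => 0

lemma pickD_mem (g : ℕ) (U : Finset ℕ) (hg : P.g0 ≤ g) (h1 : ∀ j ∈ U, j < 2 ^ lev g)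
    (h2 : 2 ^ (lev g - Nat.sqrt (lev g)) ≤ U.card) (s : Fin (bb (lev g)) → Fin 2) :
    P.pickD g U s ∈ U := by
  unfold pickD
  rw [dif_pos ⟨hg, h1, h2⟩]
  exact (P.hB g hg U h1 h2).choose_spec.1 s

lemma pickD_bad (g : ℕ) (U : Finset ℕ) (hg : P.g0 ≤ g) (h1 : ∀ j ∈ U, j < 2 ^ lev g)
    (h2 : 2 ^ (lev g - Nat.sqrt (lev g)) ≤ U.card) (s s' : Fin (bb (lev g)) → Fin 2)
    (hs : s ≠ s') :
    ¬ Bad P.η P.lam (((2 : ℝ) ^ (lev g + Nat.sqrt (lev g)))⁻¹) (lev g) (P.pickD g U s)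
      (P.pickD g U s') := by
  unfold pickD
  rw [dif_pos ⟨hg, h1, h2⟩]
  exact (P.hB g hg U h1 h2).choose_spec.2 s s' hs

/-- the symbol of the slot `t` of the group `g` -/
def sym (b : ℕ → Fin 2) (g t : ℕ) : Fin (bb (lev g)) → Fin 2 :=
  fun i => b (BB P.g0 g + t * bb (lev g) + i)

/-- the levels used in the first slots -/
noncomputable def used (b : ℕ → Fin 2) (g : ℕ) : ℕ → Finset ℕ
  | 0 => ∅
  | t + 1 => insert (P.pickD g (range (2 ^ lev g) \ used b g t) (P.sym b g t)) (used b g t)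

/-- the level in the slot `t` -/
noncomputable def pk (b : ℕ → Fin 2) (g t : ℕ) : ℕ :=
  P.pickD g (range (2 ^ lev g) \ P.used b g t) (P.sym b g t)

lemma used_succ (b : ℕ → Fin 2) (g t : ℕ) :
    P.used b g (t + 1) = insert (P.pk b g t) (P.used b g t) := rfl

lemma free_props {g : ℕ} {V : Finset ℕ} {t : ℕ} (ht : t < TT (lev g))
    (h1 : V ⊆ range (2 ^ lev g)) (h2 : V.card = t) :
    (∀ j ∈ range (2 ^ lev g) \ V, j < 2 ^ lev g) ∧
      2 ^ (lev g - Nat.sqrt (lev g)) ≤ (range (2 ^ lev g) \ V).card := by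
  refine ⟨fun j hj => mem_range.1 (mem_sdiff.1 hj).1, ?_⟩
  rw [card_sdiff_of_subset h1, card_range, h2]
  unfold TT at ht
  omega

lemma used_props (b : ℕ → Fin 2) (g t : ℕ) (hg : P.g0 ≤ g) (ht : t ≤ TT (lev g)) :
    P.used b g t ⊆ range (2 ^ lev g) ∧ (P.used b g t).card = t := by
  induction t with
  | zero => simp [used]
  | succ t ih =>
    obtain ⟨h1, h2⟩ := ih (by omega)
    obtain ⟨h3, h4⟩ := free_props (show t < TT (lev g) by omega) h1 h2
    have h5 : P.pk b g t ∈ range (2 ^ lev g) ∧ P.pk b g t ∉ P.used b g t :=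
      mem_sdiff.1 (P.pickD_mem g _ hg h3 h4 (P.sym b g t))
    rw [used_succ]
    refine ⟨insert_subset h5.1 h1, ?_⟩
    rw [card_insert_of_notMem h5.2, h2]

lemma pk_mem (b : ℕ → Fin 2) (g t : ℕ) (hg : P.g0 ≤ g) (ht : t < TT (lev g)) :
    P.pk b g t < 2 ^ lev g ∧ P.pk b g t ∉ P.used b g t := by
  obtain ⟨h1, h2⟩ := P.used_props b g t hg ht.le
  obtain ⟨h3, h4⟩ := free_props ht h1 h2
  have h5 := mem_sdiff.1 (P.pickD_mem g _ hg h3 h4 (P.sym b g t))
  exact ⟨mem_range.1 h5.1, h5.2⟩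

lemma used_mono (b : ℕ → Fin 2) (g : ℕ) : Monotone (P.used b g) := by
  apply monotone_nat_of_le_succ
  intro t
  rw [used_succ]
  exact subset_insert _ _

lemma pk_mem_used (b : ℕ → Fin 2) (g t t' : ℕ) (h : t < t') : P.pk b g t ∈ P.used b g t' :=
  P.used_mono b g h (by rw [used_succ]; exact mem_insert_self _ _)

lemma mem_used (b : ℕ → Fin 2) (g t j : ℕ) (h : j ∈ P.used b g t) : ∃ t' < t, P.pk b g t' = j := by
  induction t with
  | zero => simp [used] at h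
  | succ t ih =>
    rw [used_succ, mem_insert] at h
    rcases h with rfl | h
    · exact ⟨t, by omega, rfl⟩
    · obtain ⟨t', h1, h2⟩ := ih h
      exact ⟨t', by omega, h2⟩

lemma pk_inj (b : ℕ → Fin 2) (g t t' : ℕ) (hg : P.g0 ≤ g) (ht : t < TT (lev g))
    (ht' : t' < TT (lev g)) (h : P.pk b g t = P.pk b g t') : t = t' := by
  rcases lt_trichotomy t t' with h1 | h1 | h1
  · exact absurd (h ▸ P.pk_mem_used b g t t' h1) (P.pk_mem b g t' hg ht').2
  · exact h1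
  · exact absurd (h ▸ P.pk_mem_used b g t' t h1) (P.pk_mem b g t hg ht).2

lemma sum_used (b : ℕ → Fin 2) (g t : ℕ) (hg : P.g0 ≤ g) (ht : t ≤ TT (lev g)) (φ : ℕ → ℝ) :
    ∑ j ∈ P.used b g t, φ j = ∑ t' ∈ range t, φ (P.pk b g t') := by
  induction t with
  | zero => simp [used]
  | succ t ih =>
    rw [used_succ, sum_insert (P.pk_mem b g t hg (by omega)).2, ih (by omega), sum_range_succ,
      add_comm]

open Classical in
/-- the slot of the level `nn g + j` -/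
noncomputable def tau (b : ℕ → Fin 2) (g j : ℕ) : ℕ :=
  if h : ∃ t, t < TT (lev g) ∧ P.pk b g t = j then Nat.find h else 2 ^ lev g - 1

lemma tau_pk (b : ℕ → Fin 2) (g t : ℕ) (hg : P.g0 ≤ g) (ht : t < TT (lev g)) :
    P.tau b g (P.pk b g t) = t := by
  classical
  have hex : ∃ t', t' < TT (lev g) ∧ P.pk b g t' = P.pk b g t := ⟨t, ht, rfl⟩
  unfold tau
  rw [dif_pos hex]
  have h := Nat.find_spec hex
  exact P.pk_inj b g _ _ hg h.1 ht h.2

lemma tau_unused (b : ℕ → Fin 2) (g j : ℕ) (hj : j ∉ P.used b g (TT (lev g))) :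
    P.tau b g j = 2 ^ lev g - 1 := by
  unfold tau
  rw [dif_neg]
  rintro ⟨t, ht, rfl⟩
  exact hj (P.pk_mem_used b g t _ ht)

lemma TT_le (r : ℕ) : TT r ≤ 2 ^ r := Nat.sub_le _ _

lemma tau_lt (b : ℕ → Fin 2) (g j : ℕ) : P.tau b g j < 2 ^ lev g := by
  unfold tau
  have h0 : 0 < 2 ^ lev g := by positivity
  split_ifs with h
  · exact (Nat.find_spec h).1.trans_le (TT_le _)
  · omega

/-- the exponent of the level `i` -/
noncomputable def kb (b : ℕ → Fin 2) (i : ℕ) : ℕ :=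
  if P.g0 ≤ grp i then P.kk (grp i) (i - nn (grp i)) (P.tau b (grp i) (i - nn (grp i))) else 0

lemma kb_le (b : ℕ → Fin 2) (i : ℕ) : P.kb b i ≤ i := by
  obtain ⟨g, j, hj, rfl⟩ := exists_grp i
  unfold kb
  rw [grp_eq g j hj, Nat.add_sub_cancel_left]
  split_ifs with h
  · exact (P.kk_le g j _ h hj (P.tau_lt b g j)).trans (Nat.le_add_right _ _)
  · exact Nat.zero_le _

/-- the value of the level `i` -/
noncomputable def val (b : ℕ → Fin 2) (i : ℕ) : ℝ :=
  Real.exp (-(P.EE (grp i) (i - nn (grp i)) + P.lam * P.kb b i))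

lemma val_pos (b : ℕ → Fin 2) (i : ℕ) : 0 < P.val b i := Real.exp_pos _

lemma val_eq (b : ℕ → Fin 2) (g j : ℕ) (hg : P.g0 ≤ g) (hj : j < 2 ^ lev g) :
    P.val b (nn g + j) = P.vv g j (P.tau b g j) := by
  unfold val vv kb
  rw [grp_eq g j hj, Nat.add_sub_cancel_left, if_pos hg]

lemma gsum_eq (b : ℕ → Fin 2) (g : ℕ) (hg : P.g0 ≤ g) :
    ∑ j ∈ range (2 ^ lev g), P.val b (nn g + j) =
      ∑ t ∈ range (TT (lev g)), P.vv g (P.pk b g t) t +
      ∑ j ∈ range (2 ^ lev g) \ P.used b g (TT (lev g)), P.vv g j (2 ^ lev g - 1) := by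
  have h1 := P.used_props b g (TT (lev g)) hg le_rfl
  have h2 : ∑ j ∈ range (2 ^ lev g), P.val b (nn g + j) =
      ∑ j ∈ range (2 ^ lev g), P.vv g j (P.tau b g j) := by
    apply sum_congr rfl
    intro j hj
    exact P.val_eq b g j hg (mem_range.1 hj)
  rw [h2, ← sum_sdiff h1.1, add_comm, P.sum_used b g _ hg le_rfl]
  congr 1
  · apply sum_congr rfl
    intro t ht
    rw [P.tau_pk b g t hg (mem_range.1 ht)]
  · apply sum_congr rfl
    intro j hj
    rw [P.tau_unused b g j (mem_sdiff.1 hj).2]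

lemma SS_add (g τ τ' : ℕ) :
    Real.exp (-P.SS g (τ + τ')) = Real.exp (-P.SS g τ) * (((2 : ℝ) ^ Ls P.κ (lev g))⁻¹) ^ τ' := by
  have h1 : (((2 : ℝ) ^ Ls P.κ (lev g))⁻¹) ^ τ' =
      Real.exp (-(Real.log 2 * (Ls P.κ (lev g) * τ'))) := by
    rw [inv_pow, ← pow_mul, Real.exp_neg, Real.exp_mul, Real.exp_log (by norm_num)]
    congr 1
    rw [← Real.rpow_natCast]
    push_cast
    rfl
  rw [h1, ← Real.exp_add]
  congr 1
  unfold SS
  push_cast
  ring

lemma SS_next (g : ℕ) : P.SS g (2 ^ lev g) ≤ P.SS (g + 1) 0 := by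
  unfold SS
  rw [PP_succ, nn_succ]
  have h1 : (0 : ℝ) ≤ 2 ^ lev (g + 1) * P.η := mul_nonneg (by positivity) P.hη
  push_cast
  nlinarith

/-- the bound of the `g`-th group -/
noncomputable def cc (g : ℕ) : ℝ := 2 ^ lev g * Real.exp (-P.SS g 0)

lemma vv_le_zero (g j τ : ℕ) : P.vv g j τ ≤ Real.exp (-P.SS g 0) := by
  refine (P.vv_le g j τ).trans ?_
  have h := P.SS_add g 0 τ
  rw [zero_add] at h
  rw [h]
  have h1 : (((2 : ℝ) ^ Ls P.κ (lev g))⁻¹) ^ τ ≤ 1 := by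
    apply pow_le_one₀ (by positivity)
    exact inv_le_one_of_one_le₀ (one_le_pow₀ (by norm_num))
  have h2 : 0 < Real.exp (-P.SS g 0) := Real.exp_pos _
  nlinarith

lemma gsum_le (b : ℕ → Fin 2) (g : ℕ) (hg : P.g0 ≤ g) :
    ∑ j ∈ range (2 ^ lev g), P.val b (nn g + j) ≤ P.cc g := by
  have h : ∀ j ∈ range (2 ^ lev g), P.val b (nn g + j) ≤ Real.exp (-P.SS g 0) := by
    intro j hj
    rw [P.val_eq b g j hg (mem_range.1 hj)]
    exact P.vv_le_zero g j _
  refine (sum_le_card_nsmul _ _ _ h).trans (le_of_eq ?_)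
  rw [card_range, nsmul_eq_mul]
  unfold cc
  push_cast
  rfl

lemma lev_ge (g : ℕ) (hg : P.g0 ≤ g) : 64 ≤ lev g := by
  have h1 := P.hw8 g hg
  have h2 := Nat.sqrt_le (lev g)
  nlinarith

lemma Ls_ge' (g : ℕ) : lev g ≤ Ls P.κ (lev g) := by
  have := Ls_ge P.κ P.hκ (lev g)
  omega

/-- the next groups are much smaller -/
lemma cc_succ (g m : ℕ) (hm : m ≤ 2 ^ lev g) :
    P.cc (g + 1) ≤ Real.exp (-P.SS g m) *
      (2 * 2 ^ lev g * (((2 : ℝ) ^ Ls P.κ (lev g))⁻¹) ^ (2 ^ lev g - m)) := by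
  unfold cc
  have h1 : (2 : ℝ) ^ lev (g + 1) ≤ 2 * 2 ^ lev g := by
    calc (2 : ℝ) ^ lev (g + 1) ≤ 2 ^ (lev g + 1) :=
          pow_le_pow_right₀ (by norm_num) (lev_succ_le g)
      _ = _ := by rw [pow_succ]; ring
  have h2 : Real.exp (-P.SS (g + 1) 0) ≤ Real.exp (-P.SS g (2 ^ lev g)) :=
    Real.exp_le_exp.2 (by linarith [P.SS_next g])
  have h3 : Real.exp (-P.SS g (2 ^ lev g)) =
      Real.exp (-P.SS g m) * (((2 : ℝ) ^ Ls P.κ (lev g))⁻¹) ^ (2 ^ lev g - m) := by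
    rw [← P.SS_add, Nat.add_sub_cancel' hm]
  calc (2 : ℝ) ^ lev (g + 1) * Real.exp (-P.SS (g + 1) 0)
      ≤ (2 * 2 ^ lev g) * Real.exp (-P.SS g (2 ^ lev g)) := by gcongr
    _ = _ := by rw [h3]; ring

/-- `q = 2 ^ (- Ls)` -/
lemma q_bounds (g : ℕ) (hg : P.g0 ≤ g) :
    0 < ((2 : ℝ) ^ Ls P.κ (lev g))⁻¹ ∧ ((2 : ℝ) ^ Ls P.κ (lev g))⁻¹ ≤ 1 / 16 ∧
      2 ^ lev g * ((2 : ℝ) ^ Ls P.κ (lev g))⁻¹ ≤ 1 := by
  have h1 := P.lev_ge g hg
  have h2 := P.Ls_ge' g
  refine ⟨by positivity, ?_, ?_⟩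
  · rw [one_div]
    apply inv_anti₀ (by norm_num)
    calc (16 : ℝ) = 2 ^ 4 := by norm_num
      _ ≤ _ := pow_le_pow_right₀ (by norm_num) (by omega)
  · rw [← div_eq_mul_inv, div_le_one (by positivity)]
    exact pow_le_pow_right₀ (by norm_num) h2

lemma cc_half (g : ℕ) (hg : P.g0 ≤ g) : P.cc (g + 1) ≤ P.cc g / 2 := by
  refine (P.cc_succ g 0 (Nat.zero_le _)).trans ?_
  obtain ⟨h1, h2, h3⟩ := P.q_bounds g hg
  set q := ((2 : ℝ) ^ Ls P.κ (lev g))⁻¹ with hq
  unfold cc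
  have h4 : q ^ (2 ^ lev g - 0) ≤ q := by
    have : 1 ≤ 2 ^ lev g - 0 := by
      have : 0 < 2 ^ lev g := by positivity
      omega
    calc q ^ (2 ^ lev g - 0) ≤ q ^ 1 := pow_le_pow_of_le_one h1.le (by linarith) this
      _ = q := pow_one q
  have h5 : 0 < Real.exp (-P.SS g 0) := Real.exp_pos _
  have h6 : (0 : ℝ) < 2 ^ lev g := by positivity
  calc Real.exp (-P.SS g 0) * (2 * 2 ^ lev g * q ^ (2 ^ lev g - 0))
      ≤ Real.exp (-P.SS g 0) * (2 * 2 ^ lev g * (1 / 16)) := by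
        gcongr
        linarith
    _ ≤ _ := by nlinarith [mul_pos h5 h6]

lemma summable_val (b : ℕ → Fin 2) : Summable (P.val b) :=
  (tail_bound (P.val b) (fun i => (P.val_pos b i).le) P.cc P.g0 (fun g hg => P.gsum_le b g hg)
    (fun g hg => P.cc_half g hg)).1

lemma tail_val (b : ℕ → Fin 2) (g : ℕ) (hg : P.g0 ≤ g) : ∑' i, P.val b (i + nn g) ≤ 2 * P.cc g :=
  (tail_bound (P.val b) (fun i => (P.val_pos b i).le) P.cc P.g0 (fun g hg => P.gsum_le b g hg)
    (fun g hg => P.cc_half g hg)).2 g hg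

/-- the coded number -/
noncomputable def FF (b : ℕ → Fin 2) : ℝ := ∑' i, P.val b i

end Par

end Pool.Agent.R825.MK
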