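import Mathlib

/-!
# A separated coding by binary sequences gives a lower bound of the Hausdorff dimension
(adapted from helper21's `Pool/Agent/R21/EK/Dim.lean`)
-/

set_option autoImplicit false

open Set
open scoped ENNReal NNReal

namespace Pool.Agent.R825.MK

/-- If real numbers `F b ∈ T` are given for all binary sequences `b` and the `F b` of two sequences
whose first difference is at place `n` satisfy `2 ^ (-n) ≤ C |F b - F b'| ^ s`, then `T` has positive
Hausdorff dimension. -/
theorem le_dimH_of_code (F : (ℕ → Fin 2) → ℝ) (T : Set ℝ) (hT : ∀ b, F b ∈ T) (s C : ℝ≥0)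
    (hs : 0 < s)
    (hsep : ∀ (b b' : ℕ → Fin 2) (n : ℕ), (∀ i < n, b i = b' i) → b n ≠ b' n →
      ((2 : ℝ) ^ n)⁻¹ ≤ C * |F b - F b'| ^ (s : ℝ)) : (s : ℝ≥0∞) ≤ dimH T := by
  classical
  have hinj : Function.Injective F := by
    intro b b' h
    by_contra hne
    have hex : ∃ n, b n ≠ b' n := by
      by_contra hcon
      push Not at hcon
      exact hne (funext hcon)
    have h1 := hsep b b' (Nat.find hex) (fun i hi => by
      have := Nat.find_min hex hi
      push Not at this
      exact this) (Nat.find_spec hex)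
    rw [h, sub_self, abs_zero, Real.zero_rpow (by exact_mod_cast hs.ne'), mul_zero] at h1
    have : (0 : ℝ) < ((2 : ℝ) ^ (Nat.find hex))⁻¹ := by positivity
    linarith
  set g : ℝ → ℝ := fun t => Real.ofDigits (Function.invFun F t) with hg
  have hgF : ∀ b, g (F b) = Real.ofDigits b := by
    intro b
    simp only [hg]
    rw [Function.leftInverse_invFun hinj b]
  have hH : HolderOnWith C s g (range F) := by
    rintro _ ⟨b, rfl⟩ _ ⟨b', rfl⟩
    rw [hgF, hgF, edist_dist, edist_dist, Real.dist_eq, Real.dist_eq]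
    by_cases hbb : b = b'
    · subst hbb
      simp
    have hex : ∃ n, b n ≠ b' n := by
      by_contra hcon
      push Not at hcon
      exact hbb (funext hcon)
    have hpre : ∀ i < Nat.find hex, b i = b' i := fun i hi => by
      have := Nat.find_min hex hi
      push Not at this
      exact this
    have h1 := hsep b b' (Nat.find hex) hpre (Nat.find_spec hex)
    have h2 := Real.abs_ofDigits_sub_ofDigits_le hpre
    have h3 : |Real.ofDigits b - Real.ofDigits b'| ≤ C * |F b - F b'| ^ (s : ℝ) := by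
      refine le_trans h2 (le_trans (le_of_eq ?_) h1)
      norm_num
    rw [ENNReal.ofReal_rpow_of_nonneg (abs_nonneg _) (NNReal.coe_nonneg s)]
    have h4 : (C : ℝ≥0∞) = ENNReal.ofReal (C : ℝ) := (ENNReal.ofReal_coe_nnreal).symm
    rw [h4, ← ENNReal.ofReal_mul (NNReal.coe_nonneg C)]
    exact ENNReal.ofReal_le_ofReal h3
  have h1 := hH.dimH_image_le hs
  have h2 : Icc (0 : ℝ) 1 ⊆ g '' range F := by
    intro z hz
    obtain ⟨b, -, hb⟩ := Real.ofDigits_SurjOn (b := 2) (by norm_num) hz
    exact ⟨F b, ⟨b, rfl⟩, by rw [hgF, hb]⟩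
  have h3 : dimH (Icc (0 : ℝ) 1) = 1 := by
    have := Real.dimH_of_nonempty_interior (E := ℝ) (s := Icc (0 : ℝ) 1) (by
      rw [interior_Icc]; exact ⟨1 / 2, by norm_num⟩)
    simpa using this
  have h4 : (1 : ℝ≥0∞) ≤ dimH (range F) / s := by
    rw [← h3]
    exact (dimH_mono h2).trans h1
  have h5 : (s : ℝ≥0∞) ≤ dimH (range F) := by
    have hs0 : (s : ℝ≥0∞) ≠ 0 := by exact_mod_cast hs.ne'
    have hst : (s : ℝ≥0∞) ≠ ⊤ := ENNReal.coe_ne_top
    rw [ENNReal.le_div_iff_mul_le (Or.inl hs0) (Or.inl hst), one_mul] at h4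
    exact h4
  refine h5.trans (dimH_mono ?_)
  rintro _ ⟨b, rfl⟩
  exact hT b

end Pool.Agent.R825.MK
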