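import Pool.Agent.R825.MK.Core2
import Pool.Agent.R825.MK.Dim

/-!
# Separation and the lower bound of the dimension
-/

set_option autoImplicit false

open Finset
open scoped NNReal ENNReal

namespace Pool.Agent.R825.MK

lemma BB_succ (g0 g : ℕ) : BB g0 (g + 1) = BB g0 g + if g0 ≤ g then TT (lev g) * bb (lev g) else 0 :=
  sum_range_succ _ _

lemma BB_mono (g0 : ℕ) : Monotone (BB g0) := by
  apply monotone_nat_of_le_succ
  intro g
  rw [BB_succ]
  exact Nat.le_add_right _ _

lemma geom_bound (q : ℝ) (h0 : 0 < q) (h1 : q ≤ 1 / 2) (m : ℕ) :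
    ∑ x ∈ range m, q ^ (x + 1) ≤ 2 * q * (1 - q ^ m) := by
  induction m with
  | zero => simp
  | succ m ih =>
    rw [sum_range_succ]
    have h2 : 0 < q ^ m := by positivity
    have h3 : q ^ (m + 1) = q * q ^ m := by ring
    rw [h3]
    have h4 : 0 < q * q ^ m := by positivity
    nlinarith

namespace Par

variable (P : Par)

lemma used_congr (b b' : ℕ → Fin 2) (g m : ℕ) (h : ∀ t < m, P.sym b g t = P.sym b' g t) :
    P.used b g m = P.used b' g m := by
  induction m with
  | zero => rfl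
  | succ m ih =>
    have h1 := ih (fun t ht => h t (by omega))
    rw [used_succ, used_succ]
    unfold pk
    rw [h1, h m (by omega)]

lemma pk_congr (b b' : ℕ → Fin 2) (g m : ℕ) (h : ∀ t < m, P.sym b g t = P.sym b' g t) (t : ℕ)
    (ht : t < m) : P.pk b g t = P.pk b' g t := by
  unfold pk
  rw [P.used_congr b b' g t (fun t' ht' => h t' (by omega)), h t ht]

lemma tau_congr (b b' : ℕ → Fin 2) (g : ℕ) (hg : P.g0 ≤ g)
    (h : ∀ t < TT (lev g), P.sym b g t = P.sym b' g t) (j : ℕ) : P.tau b g j = P.tau b' g j := by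
  by_cases hj : j ∈ P.used b g (TT (lev g))
  · obtain ⟨t, ht, rfl⟩ := P.mem_used b g _ j hj
    rw [P.tau_pk b g t hg ht]
    conv_rhs => rw [P.pk_congr b b' g _ h t ht]
    rw [P.tau_pk b' g t hg ht]
  · have hj' : j ∉ P.used b' g (TT (lev g)) := by
      rw [← P.used_congr b b' g _ h]
      exact hj
    rw [P.tau_unused b g j hj, P.tau_unused b' g j hj']

lemma sym_eq_of_pre (b b' : ℕ → Fin 2) (n : ℕ) (hpre : ∀ i < n, b i = b' i) (g t : ℕ)
    (h : BB P.g0 g + (t + 1) * bb (lev g) ≤ n) : P.sym b g t = P.sym b' g t := by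
  funext i
  unfold sym
  apply hpre
  have h1 := i.2
  have h2 : (t + 1) * bb (lev g) = t * bb (lev g) + bb (lev g) := by ring
  omega

lemma val_congr (b b' : ℕ → Fin 2) (g : ℕ) (hpre : ∀ i < BB P.g0 g, b i = b' i) (i : ℕ)
    (hi : i < nn g) : P.val b i = P.val b' i := by
  obtain ⟨g', j, hj, rfl⟩ := exists_grp i
  have hg' : g' < g := by
    by_contra hcon
    have h1 : nn g ≤ nn g' := nn_strictMono.monotone (by omega)
    omega
  unfold val kb
  rw [grp_eq g' j hj, Nat.add_sub_cancel_left]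
  by_cases h : P.g0 ≤ g'
  · rw [if_pos h, if_pos h]
    rw [P.tau_congr b b' g' h]
    intro t ht
    apply P.sym_eq_of_pre b b' _ hpre
    have h1 : BB P.g0 (g' + 1) ≤ BB P.g0 g := BB_mono P.g0 hg'
    rw [BB_succ, if_pos h] at h1
    have h2 : (t + 1) * bb (lev g') ≤ TT (lev g') * bb (lev g') :=
      Nat.mul_le_mul_right _ (by omega)
    omega
  · rw [if_neg h, if_neg h]

lemma FF_split (b : ℕ → Fin 2) (g : ℕ) :
    P.FF b = ∑ i ∈ range (nn g), P.val b i + ∑ j ∈ range (2 ^ lev g), P.val b (nn g + j) +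
      ∑' i, P.val b (i + nn (g + 1)) := by
  unfold FF
  rw [← (P.summable_val b).sum_add_tsum_nat_add (nn (g + 1)), nn_succ, sum_range_add]

theorem sep (b b' : ℕ → Fin 2) (g t : ℕ) (hg : P.g0 ≤ g) (ht : t < TT (lev g))
    (hpre : ∀ i < BB P.g0 g + t * bb (lev g), b i = b' i) (hdiff : P.sym b g t ≠ P.sym b' g t) :
    ((2 : ℝ) ^ Ls P.κ (lev g))⁻¹ * Real.exp (-P.SS g t) ≤ |P.FF b - P.FF b'| := by
  obtain ⟨hq0, hq1, hq2⟩ := P.q_bounds g hg
  have hr := P.lev_ge g hg
  set q := ((2 : ℝ) ^ Ls P.κ (lev g))⁻¹ with hq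
  set X := Real.exp (-P.SS g t) with hX
  have hX0 : 0 < X := Real.exp_pos _
  -- sizes
  have hgap : 3 ≤ 2 ^ lev g - 1 - t := by
    have h1 : 2 ^ 2 ≤ 2 ^ (lev g - Nat.sqrt (lev g)) := by
      apply Nat.pow_le_pow_right (by norm_num)
      have h2 := Nat.sqrt_le (lev g)
      have h3 : Nat.sqrt (lev g) * 8 ≤ Nat.sqrt (lev g) * Nat.sqrt (lev g) := Nat.mul_le_mul_left _ (P.hw8 g hg)
      omega
    unfold TT at ht
    omega
  -- symbols agree before
  have hsym : ∀ t' < t, P.sym b g t' = P.sym b' g t' := by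
    intro t' ht'
    apply P.sym_eq_of_pre b b' _ hpre
    have : (t' + 1) * bb (lev g) ≤ t * bb (lev g) := Nat.mul_le_mul_right _ (by omega)
    omega
  have hused := P.used_congr b b' g t hsym
  -- decomposition
  have hval : ∑ i ∈ range (nn g), P.val b i = ∑ i ∈ range (nn g), P.val b' i := by
    apply sum_congr rfl
    intro i hi
    exact P.val_congr b b' g (fun i hi => hpre i (by omega)) i (mem_range.1 hi)
  set D : ℕ → ℝ := fun t' => P.vv g (P.pk b g t') t' - P.vv g (P.pk b' g t') t' with hD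
  obtain ⟨m, hm⟩ : ∃ m, TT (lev g) = t + 1 + m := ⟨TT (lev g) - (t + 1), by omega⟩
  have hsumD : ∑ t' ∈ range (TT (lev g)), P.vv g (P.pk b g t') t' -
      ∑ t' ∈ range (TT (lev g)), P.vv g (P.pk b' g t') t' = D t + ∑ x ∈ range m, D (t + 1 + x) := by
    rw [← sum_sub_distrib, hm, sum_range_add, sum_range_succ]
    have h0 : ∑ x ∈ range t, (P.vv g (P.pk b g x) x - P.vv g (P.pk b' g x) x) = 0 := by
      apply sum_eq_zero
      intro x hx
      rw [P.pk_congr b b' g t hsym x (mem_range.1 hx), sub_self]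
    rw [h0, zero_add]
  set U := ∑ j ∈ range (2 ^ lev g) \ P.used b g (TT (lev g)), P.vv g j (2 ^ lev g - 1) with hU
  set U' := ∑ j ∈ range (2 ^ lev g) \ P.used b' g (TT (lev g)), P.vv g j (2 ^ lev g - 1) with hU'
  set R := ∑' i, P.val b (i + nn (g + 1)) with hR
  set R' := ∑' i, P.val b' (i + nn (g + 1)) with hR'
  have hdec : P.FF b - P.FF b' = D t + ∑ x ∈ range m, D (t + 1 + x) + (U - U') + (R - R') := by
    rw [P.FF_split b g, P.FF_split b' g, P.gsum_eq b g hg, P.gsum_eq b' g hg, hval]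
    have := hsumD
    rw [← hU, ← hU', ← hR, ← hR']
    linarith
  -- the slot `t`
  have hmain : 32 * q * X ≤ |D t| := by
    apply P.vv_sep g _ _ t hg (P.pk_mem b g t hg ht).1 (P.pk_mem b' g t hg ht).1
    obtain ⟨h1, h2⟩ := P.used_props b g t hg ht.le
    obtain ⟨h3, h4⟩ := free_props ht h1 h2
    have := P.pickD_bad g _ hg h3 h4 (P.sym b g t) (P.sym b' g t) hdiff
    unfold pk
    rw [← hused]
    exact this
  -- later slots
  have hDle : ∀ t', |D t'| ≤ Real.exp (-P.SS g t') := by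
    intro t'
    rw [abs_le]
    have h1 := P.vv_pos g (P.pk b g t') t'
    have h2 := P.vv_le g (P.pk b g t') t'
    have h3 := P.vv_pos g (P.pk b' g t') t'
    have h4 := P.vv_le g (P.pk b' g t') t'
    constructor <;> simp only [hD] <;> linarith
  have hlater : |∑ x ∈ range m, D (t + 1 + x)| ≤ X * (2 * q) := by
    calc |∑ x ∈ range m, D (t + 1 + x)| ≤ ∑ x ∈ range m, |D (t + 1 + x)| := abs_sum_le_sum_abs _ _
      _ ≤ ∑ x ∈ range m, X * q ^ (x + 1) := by
          apply sum_le_sum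
          intro x _
          refine (hDle _).trans (le_of_eq ?_)
          rw [show t + 1 + x = t + (x + 1) by ring, P.SS_add]
      _ = X * ∑ x ∈ range m, q ^ (x + 1) := by rw [mul_sum]
      _ ≤ X * (2 * q * (1 - q ^ m)) :=
          mul_le_mul_of_nonneg_left (geom_bound q hq0 (by linarith) m) hX0.le
      _ ≤ X * (2 * q) := by
          apply mul_le_mul_of_nonneg_left _ hX0.le
          have : 0 < q ^ m := by positivity
          nlinarith
  -- powers of `q`
  have hqpow : ∀ k, 2 ≤ k → q ^ k ≤ q * q := by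
    intro k hk
    calc q ^ k ≤ q ^ 2 := pow_le_pow_of_le_one hq0.le (by linarith) hk
      _ = q * q := by ring
  have h2r : (0 : ℝ) < 2 ^ lev g := by positivity
  -- unused levels
  have hUle : ∀ V : Finset ℕ, V ⊆ range (2 ^ lev g) →
      0 ≤ ∑ j ∈ V, P.vv g j (2 ^ lev g - 1) ∧ ∑ j ∈ V, P.vv g j (2 ^ lev g - 1) ≤ X * q := by
    intro V hV
    refine ⟨sum_nonneg fun j _ => (P.vv_pos g j _).le, ?_⟩
    have h1 : ∑ j ∈ V, P.vv g j (2 ^ lev g - 1) ≤ 2 ^ lev g * Real.exp (-P.SS g (2 ^ lev g - 1)) := by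
      calc ∑ j ∈ V, P.vv g j (2 ^ lev g - 1)
          ≤ V.card • Real.exp (-P.SS g (2 ^ lev g - 1)) :=
            sum_le_card_nsmul _ _ _ fun j _ => P.vv_le g j _
        _ ≤ _ := by
            rw [nsmul_eq_mul]
            apply mul_le_mul_of_nonneg_right _ (Real.exp_pos _).le
            have := card_le_card hV
            rw [card_range] at this
            exact_mod_cast this
    refine h1.trans ?_
    have h2 : 2 ^ lev g - 1 = t + (2 ^ lev g - 1 - t) := by omega
    rw [h2, P.SS_add]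
    have h3 := hqpow (2 ^ lev g - 1 - t) (by omega)
    calc (2 : ℝ) ^ lev g * (X * q ^ (2 ^ lev g - 1 - t)) ≤ 2 ^ lev g * (X * (q * q)) := by gcongr
      _ = X * q * (2 ^ lev g * q) := by ring
      _ ≤ X * q * 1 := by gcongr
      _ = _ := by ring
  obtain ⟨hU0, hU1⟩ := hUle _ (sdiff_subset (s := range (2 ^ lev g)) (t := P.used b g (TT (lev g))))
  obtain ⟨hU0', hU1'⟩ :=
    hUle _ (sdiff_subset (s := range (2 ^ lev g)) (t := P.used b' g (TT (lev g))))
  have hUU : |U - U'| ≤ X * q := by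
    rw [abs_le]
    constructor <;> linarith
  -- later groups
  have hRle : ∀ c : ℕ → Fin 2, 0 ≤ ∑' i, P.val c (i + nn (g + 1)) ∧
      ∑' i, P.val c (i + nn (g + 1)) ≤ X * q := by
    intro c
    refine ⟨tsum_nonneg fun i => (P.val_pos c _).le, ?_⟩
    refine (P.tail_val c (g + 1) (by omega)).trans ?_
    have h1 := P.cc_succ g t (by have := TT_le (lev g); omega)
    have h2 : q ^ (2 ^ lev g - t) ≤ q * q := hqpow _ (by omega)
    calc 2 * P.cc (g + 1) ≤ 2 * (X * (2 * 2 ^ lev g * q ^ (2 ^ lev g - t))) := by linarith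
      _ ≤ 2 * (X * (2 * 2 ^ lev g * (q * q))) := by gcongr
      _ = 4 * (X * q * (2 ^ lev g * q)) := by ring
      _ ≤ 4 * (X * q * (2 ^ lev g * q)) := le_rfl
      _ ≤ X * q := ?_
    have h3 : (2 : ℝ) ^ lev g * q ≤ 1 / 4 := by
      have h4 : (2 : ℝ) ^ lev g * q ≤ ((2 : ℝ) ^ 2)⁻¹ := by
        rw [hq, ← div_eq_mul_inv, div_le_iff₀ (by positivity), inv_mul_eq_div,
          le_div_iff₀ (by positivity), ← pow_add]
        apply pow_le_pow_right₀ (by norm_num)
        have h5 := Ls_ge P.κ P.hκ (lev g)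
        have h6 := P.hw8 g hg
        omega
      refine h4.trans ?_
      norm_num
    have h5 : 0 < X * q := by positivity
    nlinarith
  have hRR : |R - R'| ≤ X * q := by
    obtain ⟨h1, h2⟩ := hRle b
    obtain ⟨h3, h4⟩ := hRle b'
    rw [abs_le]
    constructor <;> linarith
  rw [hdec]
  have h1 : |D t| ≤ |D t + ∑ x ∈ range m, D (t + 1 + x) + (U - U') + (R - R')| +
      |∑ x ∈ range m, D (t + 1 + x)| + |U - U'| + |R - R'| := by
    have h2 : D t = (D t + ∑ x ∈ range m, D (t + 1 + x) + (U - U') + (R - R')) -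
        (∑ x ∈ range m, D (t + 1 + x)) - (U - U') - (R - R') := by ring
    calc |D t| = |(D t + ∑ x ∈ range m, D (t + 1 + x) + (U - U') + (R - R')) -
        (∑ x ∈ range m, D (t + 1 + x)) - (U - U') - (R - R')| := by rw [← h2]
      _ ≤ _ := by
        refine (abs_sub _ _).trans ?_
        gcongr
        refine (abs_sub _ _).trans ?_
        gcongr
        exact abs_sub _ _
  have h3 : 0 < X * q := by positivity
  nlinarith

/-- every place of the binary sequence belongs to a slot -/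
lemma exists_slot (n : ℕ) : ∃ g t, P.g0 ≤ g ∧ t < TT (lev g) ∧
    BB P.g0 g + t * bb (lev g) ≤ n ∧ n < BB P.g0 g + (t + 1) * bb (lev g) := by
  have hpos : ∀ g, P.g0 ≤ g → 0 < TT (lev g) ∧ 0 < bb (lev g) := by
    intro g hg
    have h1 := P.hw8 g hg
    have h2 := P.lev_ge g hg
    have h3 := Nat.sqrt_le (lev g)
    have h4 : Nat.sqrt (lev g) * 8 ≤ Nat.sqrt (lev g) * Nat.sqrt (lev g) := Nat.mul_le_mul_left _ h1
    constructor
    · unfold TT
      have : 2 ^ (lev g - Nat.sqrt (lev g)) < 2 ^ lev g :=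
        Nat.pow_lt_pow_right (by norm_num) (by omega)
      omega
    · unfold bb
      omega
  have hex : ∃ g, n < BB P.g0 (g + 1) := by
    have h1 : ∀ m, m ≤ BB P.g0 (P.g0 + m) := by
      intro m
      induction m with
      | zero => exact Nat.zero_le _
      | succ m ih =>
        rw [← add_assoc, BB_succ, if_pos (Nat.le_add_right _ _)]
        have h2 := hpos (P.g0 + m) (Nat.le_add_right _ _)
        have h3 : 0 < TT (lev (P.g0 + m)) * bb (lev (P.g0 + m)) := Nat.mul_pos h2.1 h2.2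
        omega
    refine ⟨P.g0 + n, ?_⟩
    have := h1 (n + 1)
    rw [← add_assoc] at this
    omega
  set g := Nat.find hex with hgdef
  have hg1 : n < BB P.g0 (g + 1) := Nat.find_spec hex
  have hg2 : BB P.g0 g ≤ n := by
    rcases Nat.eq_zero_or_pos g with h0 | hpos'
    · rw [h0]; simp [BB]
    · obtain ⟨k, hk⟩ := Nat.exists_eq_succ_of_ne_zero hpos'.ne'
      have := Nat.find_min hex (m := k) (by omega)
      rw [hk]
      exact not_lt.1 this
  have hg0 : P.g0 ≤ g := by
    by_contra hcon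
    rw [BB_succ, if_neg hcon] at hg1
    omega
  rw [BB_succ, if_pos hg0] at hg1
  obtain ⟨h1, h2⟩ := hpos g hg0
  refine ⟨g, (n - BB P.g0 g) / bb (lev g), hg0, ?_, ?_, ?_⟩
  · rw [Nat.div_lt_iff_lt_mul h2]
    omega
  · have := Nat.div_mul_le_self (n - BB P.g0 g) (bb (lev g))
    omega
  · have := Nat.lt_div_mul_add (a := n - BB P.g0 g) h2
    have h3 : ((n - BB P.g0 g) / bb (lev g) + 1) * bb (lev g) =
        (n - BB P.g0 g) / bb (lev g) * bb (lev g) + bb (lev g) := by ring
    omega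

theorem le_dimH (hD3 : St_D3) (s : ℝ≥0) (hs : 0 < s) (hsκ : s * P.κ < 1) (T : Set ℝ)
    (hT : ∀ b, P.FF b ∈ T) : (s : ℝ≥0∞) ≤ dimH T := by
  have hs' : (0 : ℝ) < s := by exact_mod_cast hs
  have hl := log2_pos
  obtain ⟨C, hC⟩ := hD3 P.κ P.hκ (P.η / Real.log 2) (div_nonneg P.hη hl.le) s hs' hsκ P.g0
  have hCpos : (0 : ℝ) ≤ 2 ^ C := (Real.rpow_pos_of_pos (by norm_num) C).le
  apply le_dimH_of_code P.FF T hT s ⟨(2 : ℝ) ^ C, hCpos⟩ hs
  intro b b' n hpre hn
  show ((2 : ℝ) ^ n)⁻¹ ≤ (2 : ℝ) ^ C * |P.FF b - P.FF b'| ^ (s : ℝ)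
  obtain ⟨g, t, hg, ht, h1, h2⟩ := P.exists_slot n
  have hdiff : P.sym b g t ≠ P.sym b' g t := by
    intro h
    have h3 : n - (BB P.g0 g + t * bb (lev g)) < bb (lev g) := by
      have : (t + 1) * bb (lev g) = t * bb (lev g) + bb (lev g) := by ring
      omega
    have h4 := congrFun h ⟨_, h3⟩
    unfold sym at h4
    simp only at h4
    rw [Nat.add_sub_cancel' h1] at h4
    exact hn h4
  have hsep := P.sep b b' g t hg ht (fun i hi => hpre i (by omega)) hdiff
  have hX : ((2 : ℝ) ^ Ls P.κ (lev g))⁻¹ * Real.exp (-P.SS g t) =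
      (2 : ℝ) ^ (-(Ls P.κ (lev g) + P.SS g t / Real.log 2)) := by
    rw [neg_add, Real.rpow_add (by norm_num), Real.rpow_neg (by norm_num), Real.rpow_natCast]
    congr 1
    rw [Real.rpow_def_of_pos (by norm_num)]
    congr 1
    field_simp
  rw [hX] at hsep
  have h5 : (2 : ℝ) ^ (-(s * (Ls P.κ (lev g) + P.SS g t / Real.log 2))) ≤
      |P.FF b - P.FF b'| ^ (s : ℝ) := by
    refine le_trans (le_of_eq ?_) (Real.rpow_le_rpow (Real.rpow_nonneg (by norm_num) _) hsep hs'.le)
    rw [← Real.rpow_mul (by norm_num)]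
    congr 1
    ring
  refine le_trans ?_ (mul_le_mul_of_nonneg_left h5 hCpos)
  rw [← Real.rpow_add (by norm_num), ← Real.rpow_natCast, ← Real.rpow_neg (by norm_num)]
  apply Real.rpow_le_rpow_of_exponent_le (by norm_num)
  have h6 := hC g hg t ht
  have h7 : P.SS g t / Real.log 2 = PP P.κ g + (nn g + 2 ^ lev g) * (P.η / Real.log 2) + 1 +
      Ls P.κ (lev g) * t := by
    unfold SS
    field_simp
  have h8 : ((BB P.g0 g : ℝ) + t * bb (lev g)) ≤ n := by exact_mod_cast h1
  rw [h7]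
  have h9 : 0 ≤ (s : ℝ) * Ls P.κ (lev g) := by positivity
  nlinarith

end Par

end Pool.Agent.R825.MK
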