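import Pool.Agent.R825.MK.Core3
import Pool.Agent.R258.MKA
import Pool.Agent.R793.MKB
import Pool.Agent.R62.MKD

/-!
# Dimension of Minkowski power series of typical compact sets
-/

set_option autoImplicit false

open TopologicalSpace Filter Topology Set
open scoped NNReal ENNReal

namespace Pool.Agent.R825.MK

open Pool.Agent.R258.MKA in
/-- the limit contains all limits of elements of the partial sums -/
lemma mem_of_tendsto (a : ℕ → ℝ) (K : KK01) (L : NonemptyCompacts ℝ) (hL : IsSeries a K L)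
    (s : ℕ → ℝ) (z : ℝ) (hs : ∀ n, s n ∈ PartialSum a K n) (hz : Tendsto s atTop (𝓝 z)) :
    z ∈ (L : Set ℝ) := by
  have h1 : Tendsto (fun n => dist (PartialSum a K n) L) atTop (𝓝 0) :=
    tendsto_iff_dist_tendsto_zero.1 hL
  have h2 : ∀ n, Metric.infDist (s n) (L : Set ℝ) ≤ dist (PartialSum a K n) L := by
    intro n
    rw [Metric.NonemptyCompacts.dist_eq]
    apply Metric.infDist_le_hausdorffDist_of_mem (hs n)
    exact Metric.hausdorffEDist_ne_top_of_nonempty_of_bounded (PartialSum a K n).nonempty L.nonempty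
      (PartialSum a K n).isCompact.isBounded L.isCompact.isBounded
  have h3 : Tendsto (fun n => Metric.infDist (s n) (L : Set ℝ)) atTop (𝓝 0) :=
    squeeze_zero (fun n => Metric.infDist_nonneg) h2 h1
  have h4 : Tendsto (fun n => Metric.infDist (s n) (L : Set ℝ)) atTop
      (𝓝 (Metric.infDist z (L : Set ℝ))) :=
    ((Metric.continuous_infDist_pt _).tendsto z).comp hz
  have h5 := tendsto_nhds_unique h4 h3
  exact (L.isCompact.isClosed.mem_iff_infDist_zero L.nonempty).2 h5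

/-- the partial sums converge -/
lemma exists_isSeries (a : ℕ → ℝ) (ha : ∀ i, 0 < a i) (hs : Summable a) (K : KK01) :
    ∃ L, IsSeries a K L := by
  have hc : CauchySeq (PartialSum a K) :=
    cauchySeq_of_dist_le_of_summable _ (fun n => Pool.Agent.R258.MKA.dist_partialSum a ha K n)
      ((summable_nat_add_iff 1).2 hs)
  exact cauchySeq_tendsto_of_complete hc

open Pool.Agent.R258.MKA in
lemma pow_mem_minkPow (K : KK01) (x y : Icc (0 : ℝ) 1) (hx : x ∈ K) (hy : y ∈ K) (i k : ℕ)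
    (hk : k ≤ i) : (x : ℝ) ^ k * (y : ℝ) ^ (i - k) ∈ MinkPow K i := by
  induction i generalizing k with
  | zero =>
    obtain rfl : k = 0 := by omega
    rw [mem_minkPow_zero]
    simp
  | succ i ih =>
    rw [mem_minkPow_succ]
    rcases Nat.lt_or_ge i k with h | h
    · obtain rfl : k = i + 1 := by omega
      refine ⟨(x : ℝ) ^ i * (y : ℝ) ^ (i - i), ih i le_rfl, x, hx, ?_⟩
      simp [pow_succ]
    · refine ⟨(x : ℝ) ^ k * (y : ℝ) ^ (i - k), ih k h, y, hy, ?_⟩
      rw [show i + 1 - k = (i - k) + 1 by omega, pow_succ]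
      ring

lemma exists_par (κ : ℝ) (hκ : 1 ≤ κ) (η lam : ℝ) (hη : 0 ≤ η) (hlam : 0 < lam) :
    ∃ P : Par, P.κ = κ ∧ P.η = η ∧ P.lam = lam := by
  obtain ⟨r0, hr0⟩ := Pool.Agent.R793.MKB.B_ok η lam hlam
  obtain ⟨g1, hg1⟩ := Pool.Agent.R62.MKD.D1_ok κ hκ ((Real.log 2 + η + Real.log 2) / lam + 1)
  obtain ⟨m, hm⟩ := pow_unbounded_of_one_lt (64 * Real.exp lam) (one_lt_two)
  set R := max r0 (max (m ^ 2) 64) with hR
  have hlev : ∀ g ≥ max g1 (R ^ 4), R ≤ lev g := fun g hg =>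
    Pool.Agent.R62.MKD.le_lev_iff.2 ((le_max_right _ _).trans hg)
  refine ⟨⟨κ, hκ, η, hη, lam, hlam, max g1 (R ^ 4), ?_, ?_, ?_, ?_⟩, rfl, rfl, rfl⟩
  · intro g hg U hU1 hU2
    exact hr0 (lev g) ((le_max_left _ _).trans (hlev g hg)) U hU1 hU2
  · intro g hg
    refine le_trans ?_ (hg1 g ((le_max_left _ _).trans hg))
    have h2 : (1 : ℝ) ≤ 2 ^ lev g := one_le_pow₀ (by norm_num)
    have hL : (0 : ℝ) ≤ Ls κ (lev g) := by positivity
    have hl := Par.log2_pos
    have h3 : (1 : ℝ) ≤ 2 ^ lev g * (Ls κ (lev g) + 1) := by nlinarith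
    have h4 : (2 : ℝ) ^ lev g ≤ 2 ^ lev g * (Ls κ (lev g) + 1) := by nlinarith
    have h5 : (2 : ℝ) ^ lev g * Ls κ (lev g) ≤ 2 ^ lev g * (Ls κ (lev g) + 1) := by nlinarith
    set X := (2 : ℝ) ^ lev g * (Ls κ (lev g) + 1) with hX
    rw [add_mul, one_mul, div_mul_eq_mul_div]
    have h6 : Real.log 2 * (2 ^ lev g * (Ls κ (lev g) : ℝ)) + η * 2 ^ lev g + Real.log 2 ≤
        (Real.log 2 + η + Real.log 2) * X := by nlinarith
    have h7 := div_le_div_of_nonneg_right h6 hlam.le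
    linarith
  · intro g hg
    have h1 : m ≤ Nat.sqrt (lev g) := by
      rw [Nat.le_sqrt']
      exact (le_max_left _ _).trans ((le_max_right _ _).trans (hlev g hg))
    have h2 : (2 : ℝ) ^ m ≤ 2 ^ Nat.sqrt (lev g) := pow_le_pow_right₀ (by norm_num) h1
    have h3 : Real.exp (-lam) * (64 * Real.exp lam) = 64 := by
      rw [mul_comm 64, ← mul_assoc, ← Real.exp_add, neg_add_cancel, Real.exp_zero, one_mul]
    have h4 : 0 < Real.exp (-lam) := Real.exp_pos _
    calc (64 : ℝ) = Real.exp (-lam) * (64 * Real.exp lam) := h3.symm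
      _ ≤ Real.exp (-lam) * 2 ^ Nat.sqrt (lev g) := by
          apply mul_le_mul_of_nonneg_left _ h4.le
          linarith
  · intro g hg
    rw [Nat.le_sqrt']
    exact (le_max_right _ _).trans ((le_max_right _ _).trans (hlev g hg))

/-- the lower bound of the dimension -/
theorem dimH_ge_of_two (κ : ℝ) (hκ : 1 ≤ κ) (K : KK01) (x y : Icc (0 : ℝ) 1) (hx : x ∈ K)
    (hy : y ∈ K) (hx0 : (0 : ℝ) < x) (hxy : (x : ℝ) < y) (L : NonemptyCompacts ℝ)
    (hL : IsSeries (aa κ) K L) (s : ℝ≥0) (hs : 0 < s) (hsκ : s * κ < 1) :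
    (s : ℝ≥0∞) ≤ dimH (L : Set ℝ) := by
  have hy0 : (0 : ℝ) < y := hx0.trans hxy
  have hη : 0 ≤ -Real.log y := by
    have := Real.log_nonpos hy0.le y.2.2
    linarith
  have hlam : 0 < Real.log (y / x) := Real.log_pos ((one_lt_div hx0).2 hxy)
  obtain ⟨P, hPκ, hPη, hPlam⟩ := exists_par κ hκ _ _ hη hlam
  apply P.le_dimH Pool.Agent.R62.MKD.D3_ok s hs (by rw [hPκ]; exact hsκ)
  intro b
  have hval : ∀ i, P.val b i = aa κ i * ((x : ℝ) ^ (P.kb b i) * (y : ℝ) ^ (i - P.kb b i)) := by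
    intro i
    have hk := P.kb_le b i
    have h1 : P.val b i = aa κ i * (Real.exp (-(i * P.η)) * Real.exp (-(P.lam * P.kb b i))) := by
      obtain ⟨g, j, hj, rfl⟩ := exists_grp i
      unfold Par.val Par.EE aa
      rw [grp_eq g j hj, Nat.add_sub_cancel_left, hPκ, ← Real.exp_add, ← Real.exp_add]
      congr 1
      push_cast
      ring
    rw [h1]
    congr 1
    have h2 : Real.exp (-(i * P.η)) = (y : ℝ) ^ i := by
      rw [hPη, show -((i : ℝ) * -Real.log y) = i * Real.log y by ring, Real.exp_nat_mul,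
        Real.exp_log hy0]
    have h3 : Real.exp (-(P.lam * P.kb b i)) = ((x : ℝ) / y) ^ (P.kb b i) := by
      rw [hPlam, show -(Real.log ((y : ℝ) / x) * (P.kb b i : ℝ)) =
        (P.kb b i : ℝ) * Real.log ((x : ℝ) / y) by
          rw [show (x : ℝ) / y = ((y : ℝ) / x)⁻¹ by rw [inv_div], Real.log_inv]; ring,
        Real.exp_nat_mul, Real.exp_log (by positivity)]
    rw [h2, h3, div_pow]
    have h4 : (y : ℝ) ^ i = (y : ℝ) ^ (i - P.kb b i) * (y : ℝ) ^ (P.kb b i) := by
      rw [← pow_add, Nat.sub_add_cancel hk]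
    rw [h4]
    field_simp
  apply mem_of_tendsto (aa κ) K L hL (fun n => ∑ i ∈ Finset.range (n + 1), P.val b i)
  · intro n
    induction n with
    | zero =>
      rw [Pool.Agent.R258.MKA.mem_partialSum_zero]
      have hk : P.kb b 0 = 0 := by have := P.kb_le b 0; omega
      rw [zero_add, Finset.sum_range_one, hval, hk]
      simp
    | succ n ih =>
      rw [Pool.Agent.R258.MKA.mem_partialSum_succ]
      refine ⟨_, ih, _, pow_mem_minkPow K x y hx hy (n + 1) _ (P.kb_le b (n + 1)), ?_⟩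
      rw [Finset.sum_range_succ _ (n + 1), hval (n + 1)]
  · unfold Par.FF
    have h := (P.summable_val b).hasSum.tendsto_sum_nat
    exact h.comp (tendsto_add_atTop_nat 1)

end Pool.Agent.R825.MK
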