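import Pool.Agent.R825.MK.Final

/-!
# The main theorem on Minkowski power series of typical compact sets
-/

set_option autoImplicit false

open TopologicalSpace Filter Topology Set
open scoped NNReal ENNReal

namespace Pool.Agent.R825.MK

/-- the sets with two positive points -/
def Two : Set KK01 := {K | ∃ x ∈ K, ∃ y ∈ K, (0 : ℝ) < (x : ℝ) ∧ (x : ℝ) < y}

lemma isOpen_two : IsOpen Two := by
  rw [Metric.isOpen_iff]
  rintro K ⟨x, hx, y, hy, hx0, hxy⟩
  set ε := min (x : ℝ) ((y : ℝ) - x) / 2 with hε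
  have hε0 : 0 < ε := by
    have : 0 < min (x : ℝ) ((y : ℝ) - x) := lt_min hx0 (by linarith)
    positivity
  have hεx : 2 * ε ≤ x := by
    rw [hε]; have := min_le_left (x : ℝ) ((y : ℝ) - x); linarith
  have hεy : 2 * ε ≤ (y : ℝ) - x := by
    rw [hε]; have := min_le_right (x : ℝ) ((y : ℝ) - x); linarith
  refine ⟨ε, hε0, ?_⟩
  intro K' hK'
  rw [Metric.mem_ball, Metric.NonemptyCompacts.dist_eq, Metric.hausdorffDist_comm] at hK'
  have hfin : Metric.hausdorffEDist (K : Set (Icc (0 : ℝ) 1)) (K' : Set (Icc (0 : ℝ) 1)) ≠ ⊤ :=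
    Metric.hausdorffEDist_ne_top_of_nonempty_of_bounded K.nonempty K'.nonempty
      K.isCompact.isBounded K'.isCompact.isBounded
  obtain ⟨x', hx', hdx⟩ := Metric.exists_dist_lt_of_hausdorffDist_lt (x := x) hx hK' hfin
  obtain ⟨y', hy', hdy⟩ := Metric.exists_dist_lt_of_hausdorffDist_lt (x := y) hy hK' hfin
  rw [Subtype.dist_eq, Real.dist_eq, abs_lt] at hdx hdy
  exact ⟨x', hx', y', hy', by linarith [hdx.2], by linarith [hdx.1, hdy.2]⟩

lemma dense_two : Dense Two := by
  rw [Metric.dense_iff]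
  intro K ε hε
  obtain ⟨a, ha⟩ := K.nonempty
  -- two positive points near `a`
  have hpts : ∃ x y : Icc (0 : ℝ) 1, (0 : ℝ) < x ∧ (x : ℝ) < y ∧ dist x a < ε ∧ dist y a < ε := by
    have ha0 := a.2.1
    have ha1 := a.2.2
    rcases lt_or_ge (a : ℝ) (1 / 2) with h | h
    · set δ := min ε (1 / 2) / 3 with hδ
      have hδ0 : 0 < δ := by
        have : 0 < min ε (1 / 2) := lt_min hε (by norm_num)
        positivity
      have h1 : 3 * δ ≤ ε := by rw [hδ]; have := min_le_left ε (1 / 2); linarith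
      have h2 : 3 * δ ≤ 1 / 2 := by rw [hδ]; have := min_le_right ε (1 / 2); linarith
      refine ⟨⟨a + δ, by constructor <;> linarith⟩, ⟨a + 2 * δ, by constructor <;> linarith⟩,
        ?_, ?_, ?_, ?_⟩
      · show (0 : ℝ) < a + δ; linarith
      · show (a : ℝ) + δ < a + 2 * δ; linarith
      · rw [Subtype.dist_eq, Real.dist_eq]
        show |(a : ℝ) + δ - a| < ε
        rw [add_sub_cancel_left, abs_of_pos hδ0]; linarith
      · rw [Subtype.dist_eq, Real.dist_eq]
        show |(a : ℝ) + 2 * δ - a| < ε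
        rw [add_sub_cancel_left, abs_of_pos (by linarith)]; linarith
    · set δ := min ε (1 / 2) / 3 with hδ
      have hδ0 : 0 < δ := by
        have : 0 < min ε (1 / 2) := lt_min hε (by norm_num)
        positivity
      have h1 : 3 * δ ≤ ε := by rw [hδ]; have := min_le_left ε (1 / 2); linarith
      have h2 : 3 * δ ≤ 1 / 2 := by rw [hδ]; have := min_le_right ε (1 / 2); linarith
      refine ⟨⟨a - 2 * δ, by constructor <;> linarith⟩, ⟨a - δ, by constructor <;> linarith⟩,
        ?_, ?_, ?_, ?_⟩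
      · show (0 : ℝ) < a - 2 * δ; linarith
      · show (a : ℝ) - 2 * δ < a - δ; linarith
      · rw [Subtype.dist_eq, Real.dist_eq]
        show |(a : ℝ) - 2 * δ - a| < ε
        rw [show (a : ℝ) - 2 * δ - a = -(2 * δ) by ring, abs_neg, abs_of_pos (by linarith)]; linarith
      · rw [Subtype.dist_eq, Real.dist_eq]
        show |(a : ℝ) - δ - a| < ε
        rw [show (a : ℝ) - δ - a = -δ by ring, abs_neg, abs_of_pos hδ0]; linarith
  obtain ⟨x, y, hx0, hxy, hdx, hdy⟩ := hpts
  set δ := max (dist x a) (dist y a) with hδ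
  have hδε : δ < ε := max_lt hdx hdy
  refine ⟨K ⊔ {x} ⊔ {y}, ?_, ?_⟩
  · rw [Metric.mem_ball, Metric.NonemptyCompacts.dist_eq]
    refine lt_of_le_of_lt ?_ hδε
    apply Metric.hausdorffDist_le_of_mem_dist (le_max_of_le_left dist_nonneg)
    · intro z hz
      rw [NonemptyCompacts.coe_sup, NonemptyCompacts.coe_sup] at hz
      rcases hz with (hz | hz) | hz
      · exact ⟨z, hz, by rw [dist_self]; exact le_max_of_le_left dist_nonneg⟩
      · have hzx : z = x := by simpa using hz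
        subst hzx
        exact ⟨a, ha, le_max_left _ _⟩
      · have hzy : z = y := by simpa using hz
        subst hzy
        exact ⟨a, ha, le_max_right _ _⟩
    · intro z hz
      refine ⟨z, ?_, by rw [dist_self]; exact le_max_of_le_left dist_nonneg⟩
      rw [NonemptyCompacts.coe_sup, NonemptyCompacts.coe_sup]
      exact Or.inl (Or.inl hz)
  · refine ⟨x, ?_, y, ?_, hx0, hxy⟩
    · rw [← SetLike.mem_coe, NonemptyCompacts.coe_sup, NonemptyCompacts.coe_sup]
      exact Or.inl (Or.inr (by simp))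
    · rw [← SetLike.mem_coe, NonemptyCompacts.coe_sup]
      exact Or.inr (by simp)


lemma two_mem_residual : Two ∈ residual KK01 := residual_of_dense_open isOpen_two dense_two

lemma aa_pos (κ : ℝ) (i : ℕ) : 0 < aa κ i := Real.exp_pos _

theorem dimH_ge (κ : ℝ) (hκ : 1 ≤ κ) (K : KK01) (hK : K ∈ Two) (L : NonemptyCompacts ℝ)
    (hL : IsSeries (aa κ) K L) : ENNReal.ofReal (1 / κ) ≤ dimH (L : Set ℝ) := by
  obtain ⟨x, hx, y, hy, hx0, hxy⟩ := hK
  apply ENNReal.le_of_forall_nnreal_lt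
  intro s hs
  rcases eq_or_lt_of_le (show (0 : ℝ≥0) ≤ s from zero_le) with h0 | h0
  · rw [← h0]; simp
  · apply dimH_ge_of_two κ hκ K x y hx hy hx0 hxy L hL s h0
    have hκ0 : 0 < κ := by linarith
    have h1 : (s : ℝ) < 1 / κ := by
      rw [← ENNReal.ofReal_coe_nnreal, ENNReal.ofReal_lt_ofReal_iff (by positivity)] at hs
      exact hs
    rw [lt_div_iff₀ hκ0] at h1
    exact h1

theorem main (hD2 : St_D2) (κ : ℝ) (hκ : 1 ≤ κ) :
    Summable (aa κ) ∧ ∀ᶠ K in residual KK01, ∀ L, IsSeries (aa κ) K L →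
      dimH (L : Set ℝ) = ENNReal.ofReal (1 / κ) ∧ MeasureTheory.volume (L : Set ℝ) = 0 := by
  obtain ⟨hs, h2⟩ := hD2 κ hκ
  have hκ0 : 0 < κ := by linarith
  refine ⟨hs, ?_⟩
  have hA := Pool.Agent.R258.MKA.A_ok (aa κ) (aa_pos κ) hs
  have hvol : ∀ᶠ K in residual KK01, ∀ L, IsSeries (aa κ) K L →
      MeasureTheory.volume (L : Set ℝ) = 0 := by
    filter_upwards [hA 1 one_pos (h2 1 one_pos (Or.inr rfl))] with K hK L hL
    have := hK L hL
    rwa [MeasureTheory.hausdorffMeasure_real] at this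
  have hdim : ∀ᶠ K in residual KK01, ∀ n : ℕ, ∀ L, IsSeries (aa κ) K L →
      MeasureTheory.Measure.hausdorffMeasure (1 / κ + 1 / ((n : ℝ) + 1)) (L : Set ℝ) = 0 := by
    rw [eventually_countable_forall]
    intro n
    have hpos : 0 < 1 / κ + 1 / ((n : ℝ) + 1) := by positivity
    apply hA _ hpos (h2 _ hpos (Or.inl _))
    rw [add_mul, one_div_mul_cancel hκ0.ne']
    have : 0 < 1 / ((n : ℝ) + 1) * κ := by positivity
    linarith
  filter_upwards [hvol, hdim, two_mem_residual] with K h3 h4 h5 L hL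
  refine ⟨le_antisymm ?_ (dimH_ge κ hκ K h5 L hL), h3 L hL⟩
  have h6 : ∀ n : ℕ, dimH (L : Set ℝ) ≤ ENNReal.ofReal (1 / κ + 1 / ((n : ℝ) + 1)) := by
    intro n
    have hpos : 0 ≤ 1 / κ + 1 / ((n : ℝ) + 1) := by positivity
    have h7 := h4 n L hL
    have h8 := dimH_le_of_hausdorffMeasure_ne_top (s := (L : Set ℝ))
      (d := ⟨1 / κ + 1 / ((n : ℝ) + 1), hpos⟩) (by
        show MeasureTheory.Measure.hausdorffMeasure (1 / κ + 1 / ((n : ℝ) + 1)) (L : Set ℝ) ≠ ⊤
        rw [h7]; exact ENNReal.zero_ne_top)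
    refine h8.trans (le_of_eq ?_)
    rw [ENNReal.ofReal, Real.toNNReal_of_nonneg hpos]
    rfl
  have h7 : Tendsto (fun n : ℕ => ENNReal.ofReal (1 / κ + 1 / ((n : ℝ) + 1))) atTop
      (𝓝 (ENNReal.ofReal (1 / κ))) := by
    apply ENNReal.tendsto_ofReal
    have h8 := (tendsto_one_div_add_atTop_nhds_zero_nat (𝕜 := ℝ)).const_add (1 / κ)
    rw [add_zero] at h8
    exact h8
  exact ge_of_tendsto' h7 h6

end Pool.Agent.R825.MK
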