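import Pool.Agent.R258.MKA

/-!
# Pointwise images of typical compact sets under power series have dimension `0`
-/

set_option autoImplicit false

open TopologicalSpace Filter Topology Set
open scoped NNReal ENNReal

namespace Pool.Agent.R825.MK

open Pool.Agent.R258.MKA

/-- radii of the covers -/
noncomputable def rad (n : ℕ) : ℝ := (((n : ℝ) + 1) ^ 2)⁻¹ ^ (n + 1) / 2

lemma rad_pos (n : ℕ) : 0 < rad n := by unfold rad; positivity

lemma two_rad (n : ℕ) : 2 * rad n = (((n : ℝ) + 1) ^ 2)⁻¹ ^ (n + 1) := by unfold rad; ring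

lemma rad_bound (n : ℕ) (s : ℝ) (hs : 1 / ((n : ℝ) + 1) ≤ s) :
    ((n : ℝ) + 1) * (2 * rad n) ^ s ≤ 1 / ((n : ℝ) + 1) := by
  have h1 : (0 : ℝ) < (n : ℝ) + 1 := by positivity
  have h2 : (((n : ℝ) + 1) ^ 2)⁻¹ ≤ 1 := by
    apply inv_le_one_of_one_le₀
    apply one_le_pow₀
    have : (0 : ℝ) ≤ n := by positivity
    linarith
  have h3 : 2 * rad n ≤ 1 := by
    rw [two_rad]
    exact pow_le_one₀ (by positivity) h2
  have h4 : (2 * rad n) ^ s ≤ (2 * rad n) ^ (1 / ((n : ℝ) + 1)) := by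
    apply Real.rpow_le_rpow_of_exponent_ge _ h3 hs
    have := rad_pos n
    linarith
  have h5 : (2 * rad n) ^ (1 / ((n : ℝ) + 1)) = (((n : ℝ) + 1) ^ 2)⁻¹ := by
    rw [two_rad, ← Real.rpow_natCast, ← Real.rpow_mul (by positivity)]
    push_cast
    rw [mul_one_div_cancel h1.ne', Real.rpow_one]
  calc ((n : ℝ) + 1) * (2 * rad n) ^ s ≤ ((n : ℝ) + 1) * (((n : ℝ) + 1) ^ 2)⁻¹ := by
        rw [← h5]; gcongr
    _ = 1 / ((n : ℝ) + 1) := by field_simp

lemma dimH_zero_of_opn (K : KK01) (hK : ∀ m : ℕ, ∃ n, m ≤ n ∧ K ∈ Opn n (rad n)) :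
    dimH (Subtype.val '' (K : Set (Icc (0 : ℝ) 1))) = 0 := by
  have key : ∀ s : ℝ, 0 < s → MeasureTheory.Measure.hausdorffMeasure s
      (Subtype.val '' (K : Set (Icc (0 : ℝ) 1))) = 0 := by
    intro s hs
    obtain ⟨M, hM⟩ := exists_nat_one_div_lt hs
    choose n hn hKn using fun m : ℕ => hK (m + M)
    choose ρ hρ0 hρ1 hρ using hKn
    have hM' : ∀ m, 1 / ((n m : ℝ) + 1) ≤ s := by
      intro m
      refine le_trans ?_ hM.le
      apply one_div_le_one_div_of_le (by positivity)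
      have h1 : M ≤ n m := by have := hn m; omega
      have : (M : ℝ) ≤ n m := by exact_mod_cast h1
      linarith
    have hm' : ∀ m, 1 / ((n m : ℝ) + 1) ≤ 1 / ((m : ℝ) + 1) := by
      intro m
      apply one_div_le_one_div_of_le (by positivity)
      have h1 : m ≤ n m := by have := hn m; omega
      have : (m : ℝ) ≤ n m := by exact_mod_cast h1
      linarith
    have ht0 : Tendsto (fun m : ℕ => (1 : ℝ) / ((m : ℝ) + 1)) atTop (𝓝 0) :=
      tendsto_one_div_add_atTop_nhds_zero_nat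
    have hrad : ∀ m, 2 * rad (n m) ≤ 1 / ((m : ℝ) + 1) := by
      intro m
      refine le_trans ?_ (hm' m)
      have h := rad_bound (n m) 1 (by
        rw [div_le_one (by positivity)]
        have : (0 : ℝ) ≤ n m := by positivity
        linarith)
      rw [Real.rpow_one] at h
      have h1 : (1 : ℝ) ≤ (n m : ℝ) + 1 := by
        have : (0 : ℝ) ≤ n m := by positivity
        linarith
      have h2 := rad_pos (n m)
      nlinarith
    have htr : Tendsto (fun m : ℕ => ENNReal.ofReal (1 / ((m : ℝ) + 1))) atTop (𝓝 0) := by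
      have h2 := ENNReal.tendsto_ofReal ht0
      rwa [ENNReal.ofReal_zero] at h2
    have key := MeasureTheory.Measure.hausdorffMeasure_le_liminf_sum
      (ι := fun m => Fin (n m + 1)) s (Subtype.val '' (K : Set (Icc (0 : ℝ) 1)))
      (l := atTop) _ htr
      (fun m e => Icc (ρ m ^ (e : ℕ) - rad (n m)) (ρ m ^ (e : ℕ) + rad (n m)))
      (Eventually.of_forall (fun m e => by
        rw [Real.ediam_Icc]
        apply ENNReal.ofReal_le_ofReal
        refine le_trans (le_of_eq ?_) (hrad m)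
        ring))
      (Eventually.of_forall (fun m z hz => by
        obtain ⟨x, hx, rfl⟩ := hz
        obtain ⟨e, he, h⟩ := hρ m x hx
        rw [mem_iUnion]
        refine ⟨⟨e, by omega⟩, ?_⟩
        rw [abs_lt] at h
        constructor <;> simp only <;> linarith [h.1, h.2]))
    have hle : ∀ m, (∑ e : Fin (n m + 1),
        Metric.ediam (Icc (ρ m ^ (e : ℕ) - rad (n m)) (ρ m ^ (e : ℕ) + rad (n m))) ^ s) ≤
          ENNReal.ofReal (1 / ((m : ℝ) + 1)) := by
      intro m
      have h6 : 0 ≤ 2 * rad (n m) := by have := rad_pos (n m); linarith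
      have e1 : ∀ e : Fin (n m + 1),
          Metric.ediam (Icc (ρ m ^ (e : ℕ) - rad (n m)) (ρ m ^ (e : ℕ) + rad (n m))) ^ s =
            ENNReal.ofReal ((2 * rad (n m)) ^ s) := by
        intro e
        rw [Real.ediam_Icc, show ρ m ^ (e : ℕ) + rad (n m) - (ρ m ^ (e : ℕ) - rad (n m)) =
          2 * rad (n m) by ring, ENNReal.ofReal_rpow_of_nonneg h6 hs.le]
      rw [Finset.sum_congr rfl (fun e _ => e1 e), Finset.sum_const, Finset.card_univ,
        Fintype.card_fin, nsmul_eq_mul, ← ENNReal.ofReal_natCast,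
        ← ENNReal.ofReal_mul (by positivity)]
      apply ENNReal.ofReal_le_ofReal
      refine le_trans ?_ (hm' m)
      have h7 := rad_bound (n m) s (hM' m)
      push_cast
      exact h7
    have hlim : liminf (fun m => ∑ e : Fin (n m + 1),
        Metric.ediam (Icc (ρ m ^ (e : ℕ) - rad (n m)) (ρ m ^ (e : ℕ) + rad (n m))) ^ s) atTop ≤ 0 := by
      calc _ ≤ liminf (fun m : ℕ => ENNReal.ofReal ((1 : ℝ) / ((m : ℝ) + 1))) atTop :=
            liminf_le_liminf (Eventually.of_forall hle)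
        _ = 0 := htr.liminf_eq
    exact le_antisymm (key.trans hlim) zero_le
  have h6 : ∀ n : ℕ, dimH (Subtype.val '' (K : Set (Icc (0 : ℝ) 1))) ≤
      ENNReal.ofReal (1 / ((n : ℝ) + 1)) := by
    intro n
    have hpos : 0 ≤ 1 / ((n : ℝ) + 1) := by positivity
    have h8 := dimH_le_of_hausdorffMeasure_ne_top (s := (Subtype.val '' (K : Set (Icc (0 : ℝ) 1))))
      (d := ⟨1 / ((n : ℝ) + 1), hpos⟩) (by
        show MeasureTheory.Measure.hausdorffMeasure (1 / ((n : ℝ) + 1)) _ ≠ ⊤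
        rw [key _ (by positivity)]; exact ENNReal.zero_ne_top)
    refine h8.trans (le_of_eq ?_)
    rw [ENNReal.ofReal, Real.toNNReal_of_nonneg hpos]
    rfl
  have h7 : Tendsto (fun n : ℕ => ENNReal.ofReal (1 / ((n : ℝ) + 1))) atTop (𝓝 0) := by
    have h2 := ENNReal.tendsto_ofReal (tendsto_one_div_add_atTop_nhds_zero_nat (𝕜 := ℝ))
    rwa [ENNReal.ofReal_zero] at h2
  exact le_antisymm (ge_of_tendsto' h7 h6) zero_le

/-- the sets which do not contain `1` -/
def NotOne : Set KK01 := {K | (1 : Icc (0 : ℝ) 1) ∉ K}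

lemma isOpen_notOne : IsOpen NotOne := by
  rw [Metric.isOpen_iff]
  intro K hK
  have hpos : 0 < Metric.infDist (1 : Icc (0 : ℝ) 1) (K : Set (Icc (0 : ℝ) 1)) := by
    rcases eq_or_lt_of_le (Metric.infDist_nonneg (x := (1 : Icc (0 : ℝ) 1))
      (s := (K : Set (Icc (0 : ℝ) 1)))) with h | h
    · exact absurd ((K.isCompact.isClosed.mem_iff_infDist_zero K.nonempty).2 h.symm) hK
    · exact h
  refine ⟨_, hpos, ?_⟩
  intro K' hK' h1
  rw [Metric.mem_ball, Metric.NonemptyCompacts.dist_eq] at hK'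
  have h2 := Metric.infDist_le_hausdorffDist_of_mem (t := (K : Set (Icc (0 : ℝ) 1))) h1
    (Metric.hausdorffEDist_ne_top_of_nonempty_of_bounded K'.nonempty K.nonempty
      K'.isCompact.isBounded K.isCompact.isBounded)
  linarith

lemma dense_notOne : Dense NotOne := by
  rw [Metric.dense_iff]
  intro K ε hε
  set δ := min ε 1 / 2 with hδ
  have hδ0 : 0 < δ := by
    have : 0 < min ε 1 := lt_min hε one_pos
    positivity
  have hδε : δ < ε := by
    have := min_le_left ε 1
    rw [hδ]; linarith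
  have hδ1 : δ ≤ 1 / 2 := by
    have := min_le_right ε 1
    rw [hδ]; linarith
  set g : Icc (0 : ℝ) 1 → Icc (0 : ℝ) 1 := fun x => ⟨min (x : ℝ) (1 - δ),
    le_min x.2.1 (by linarith), (min_le_left _ _).trans x.2.2⟩ with hg
  have hgc : Continuous g := by
    apply Continuous.subtype_mk
    fun_prop
  have hgd : ∀ x, dist x (g x) ≤ δ := by
    intro x
    rw [Subtype.dist_eq, Real.dist_eq]
    show |(x : ℝ) - min (x : ℝ) (1 - δ)| ≤ δ
    have := x.2.2
    rcases le_total (x : ℝ) (1 - δ) with h | h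
    · rw [min_eq_left h, sub_self, abs_zero]; exact hδ0.le
    · rw [min_eq_right h, abs_of_nonneg (by linarith)]; linarith
  refine ⟨K.map g hgc, ?_, ?_⟩
  · rw [Metric.mem_ball, Metric.NonemptyCompacts.dist_eq]
    refine lt_of_le_of_lt ?_ hδε
    apply Metric.hausdorffDist_le_of_mem_dist hδ0.le
    · intro z hz
      rw [NonemptyCompacts.coe_map] at hz
      obtain ⟨x, hx, rfl⟩ := hz
      exact ⟨x, hx, by rw [dist_comm]; exact hgd x⟩
    · intro z hz
      refine ⟨g z, ?_, hgd z⟩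
      rw [NonemptyCompacts.coe_map]
      exact ⟨z, hz, rfl⟩
  · intro h
    rw [← SetLike.mem_coe, NonemptyCompacts.coe_map] at h
    obtain ⟨x, -, hx⟩ := h
    have h1 := congrArg Subtype.val hx
    have h2 : min (x : ℝ) (1 - δ) = 1 := h1
    have h3 := min_le_right (x : ℝ) (1 - δ)
    linarith

/-- power series are Lipschitz on `[0, q]` -/
lemma lip (a : ℕ → ℝ) (ha : Summable fun i => |a i|) (q : ℝ) (hq0 : 0 ≤ q) (hq1 : q < 1) :
    ∃ C : ℝ≥0, LipschitzOnWith C (fun x : ℝ => ∑' i, a i * x ^ i) (Icc 0 q) := by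
  have hb : BddAbove (range fun i : ℕ => (i : ℝ) * q ^ i) :=
    (tendsto_self_mul_const_pow_of_lt_one hq0 hq1).bddAbove_range
  obtain ⟨B, hB⟩ := hb
  have hB' : ∀ i : ℕ, (i : ℝ) * q ^ i ≤ B := fun i => hB ⟨i, rfl⟩
  have hB0 : 0 ≤ B := by simpa using hB' 0
  -- `|x ^ i - y ^ i| ≤ i q ^ (i - 1) |x - y|`
  have hpow : ∀ i : ℕ, ∀ x ∈ Icc (0 : ℝ) q, ∀ y ∈ Icc (0 : ℝ) q,
      |x ^ i - y ^ i| ≤ (B + 1 + B) * (1 / (if q = 0 then 1 else q)) * |x - y| := by
    intro i x hx y hy
    rcases eq_or_ne q 0 with h | h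
    · have hx0 : x = 0 := le_antisymm (h ▸ hx.2) hx.1
      have hy0 : y = 0 := le_antisymm (h ▸ hy.2) hy.1
      rw [hx0, hy0, sub_self, abs_zero, sub_self, abs_zero, mul_zero]
    · rw [if_neg h]
      have hq : 0 < q := lt_of_le_of_ne hq0 (Ne.symm h)
      rcases Nat.eq_zero_or_pos i with h0 | h0
      · rw [h0, pow_zero, pow_zero, sub_self, abs_zero]
        positivity
      · have h1 : |x ^ i - y ^ i| ≤ |x - y| * i * max |x| |y| ^ (i - 1) := abs_pow_sub_pow_le x y i
        have h2 : max |x| |y| ≤ q := by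
          rw [abs_of_nonneg hx.1, abs_of_nonneg hy.1]
          exact max_le hx.2 hy.2
        have h3 : max |x| |y| ^ (i - 1) ≤ q ^ (i - 1) :=
          pow_le_pow_left₀ (le_max_of_le_left (abs_nonneg _)) h2 _
        have h4 : (i : ℝ) * q ^ (i - 1) = (i * q ^ i) * (1 / q) := by
          obtain ⟨k, rfl⟩ := Nat.exists_eq_succ_of_ne_zero h0.ne'
          rw [Nat.succ_sub_one, pow_succ]
          field_simp
        calc |x ^ i - y ^ i| ≤ |x - y| * i * max |x| |y| ^ (i - 1) := h1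
          _ ≤ |x - y| * i * q ^ (i - 1) := by gcongr
          _ = (i * q ^ i) * (1 / q) * |x - y| := by rw [← h4]; ring
          _ ≤ (B + 1 + B) * (1 / q) * |x - y| := by
              have := hB' i
              gcongr
              linarith
  set E := (B + 1 + B) * (1 / (if q = 0 then 1 else q)) with hE
  have hE0 : 0 ≤ E := by
    rw [hE]
    split_ifs <;> positivity
  have hsum : ∀ x ∈ Icc (0 : ℝ) q, Summable fun i => a i * x ^ i := by
    intro x hx
    apply Summable.of_norm_bounded ha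
    intro i
    rw [Real.norm_eq_abs, abs_mul, abs_pow, abs_of_nonneg hx.1]
    have : x ^ i ≤ 1 := pow_le_one₀ hx.1 (hx.2.trans hq1.le)
    have h2 := abs_nonneg (a i)
    nlinarith
  refine ⟨⟨(∑' i, |a i|) * E, mul_nonneg (tsum_nonneg fun i => abs_nonneg _) hE0⟩, ?_⟩
  apply LipschitzOnWith.of_dist_le_mul
  intro x hx y hy
  rw [Real.dist_eq, Real.dist_eq, ← (hsum x hx).tsum_sub (hsum y hy)]
  show |∑' i, (a i * x ^ i - a i * y ^ i)| ≤ (∑' i, |a i|) * E * |x - y|
  have h1 : ∀ i, |a i * x ^ i - a i * y ^ i| ≤ |a i| * (E * |x - y|) := by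
    intro i
    rw [← mul_sub, abs_mul]
    exact mul_le_mul_of_nonneg_left (hpow i x hx y hy) (abs_nonneg _)
  have h2 : Summable fun i => |a i| * (E * |x - y|) := ha.mul_right _
  have h3 : ‖∑' i, (a i * x ^ i - a i * y ^ i)‖ ≤ ∑' i, |a i| * (E * |x - y|) :=
    tsum_of_norm_bounded h2.hasSum (fun i => by rw [Real.norm_eq_abs]; exact h1 i)
  rw [Real.norm_eq_abs, tsum_mul_right] at h3
  linarith

/-- the pointwise image of the typical compact set under a power series has dimension `0` -/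
theorem pointwise_zero (a : ℕ → ℝ) (ha : Summable fun i => |a i|) :
    ∀ᶠ K : KK01 in residual KK01,
      dimH ((fun x : ℝ => ∑' i, a i * x ^ i) '' (Subtype.val '' (K : Set (Icc (0 : ℝ) 1)))) = 0 := by
  have hres : ∀ᶠ K in residual KK01, ∀ m : ℕ, ∃ n, m ≤ n ∧ K ∈ Opn n (rad n) := by
    rw [eventually_countable_forall]
    intro m
    have hop : IsOpen (⋃ n ∈ {n | m ≤ n}, Opn n (rad n)) :=
      isOpen_biUnion (fun n _ => isOpen_opn _ _)
    have hde := dense_opn (fun n => n) rad (fun n => le_rfl) rad_pos m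
    filter_upwards [residual_of_dense_open hop hde] with K hK
    rw [mem_iUnion₂] at hK
    obtain ⟨n, hn, h⟩ := hK
    exact ⟨n, hn, h⟩
  filter_upwards [hres, residual_of_dense_open isOpen_notOne dense_notOne] with K hK h1
  obtain ⟨x, hxK, hx⟩ := K.isCompact.exists_isMaxOn K.nonempty
    (f := (Subtype.val : Icc (0 : ℝ) 1 → ℝ)) continuous_subtype_val.continuousOn
  have hx1 : (x : ℝ) < 1 := by
    refine lt_of_le_of_ne x.2.2 ?_
    intro h
    exact h1 (by
      have : x = 1 := Subtype.ext h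
      rwa [← this])
  obtain ⟨C, hC⟩ := lip a ha x x.2.1 hx1
  have hsub : Subtype.val '' (K : Set (Icc (0 : ℝ) 1)) ⊆ Icc (0 : ℝ) x := by
    rintro _ ⟨z, hz, rfl⟩
    exact ⟨z.2.1, hx hz⟩
  have h2 := (hC.mono hsub).dimH_image_le
  rw [dimH_zero_of_opn K hK] at h2
  exact le_antisymm h2 zero_le

end Pool.Agent.R825.MK
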